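import Pool.Agent.H20R2.EN.FLem
import Pool.Agent.H373R2.T7.Crt
import Pool.Agent.W41.Sieve

/-!
The fundamental lemma for weighted sums over a finite set of integers which are equidistributed in
residue classes (after `Pool.Agent.TH892.SW.fl_set`, the case of an interval).
-/

set_option autoImplicit false

namespace Pool.Agent.N740.PA

open Finset
open Pool.Agent.W41 (JJ JJ_lt JJ_le JJ_small)

open Classical in
/-- counting in intersections of unions of classes -/
lemma count_w (A : ℕ → ℕ → Prop) (S : Finset ℕ) (hS : ∀ p ∈ S, p.Prime) (Ω : Finset ℕ) (w : ℕ → ℝ) (W η : ℝ)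
    (h : ∀ r : ℕ, |∑ m ∈ Ω.filter (fun m => m ≡ r [MOD ∏ p ∈ S, p]), w m - W / ((∏ p ∈ S, p : ℕ) : ℝ)| ≤ η) :
    |∑ m ∈ Ω.filter (fun m => ∀ p ∈ S, A p (m % p)), w m -
      W * ∏ p ∈ S, ((((range p).filter (fun a => A p a)).card : ℝ) / p)| ≤
      (∏ p ∈ S, (((range p).filter (fun a => A p a)).card : ℝ)) * η := by
  set d := ∏ p ∈ S, p with hd
  have hd0 : 0 < d := Nat.pos_of_ne_zero (prod_ne_zero_iff.2 fun p hp => (hS p hp).ne_zero)
  have hdr : (0 : ℝ) < d := by exact_mod_cast hd0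
  have hmod : ∀ m : ℕ, ∀ p ∈ S, m % d % p = m % p := fun m p hp => Nat.mod_mod_of_dvd m (dvd_prod_of_mem _ hp)
  set T := (range d).filter (fun n => ∀ p ∈ S, A p (n % p)) with hT
  have hcrt : T.card = ∏ p ∈ S, ((range p).filter (fun a => A p a)).card := by
    have := Pool.Agent.H373R2.T7.crt_card A S hS
    rw [hT, hd]
    convert this
  have e1 : ∑ m ∈ Ω.filter (fun m => ∀ p ∈ S, A p (m % p)), w m =
      ∑ r ∈ T, ∑ m ∈ Ω.filter (fun m => m ≡ r [MOD d]), w m := by
    rw [← sum_fiberwise_of_maps_to (s := Ω.filter (fun m => ∀ p ∈ S, A p (m % p))) (t := T) (g := fun m => m % d)]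
    · refine sum_congr rfl fun r hr => ?_
      rw [hT, mem_filter, mem_range] at hr
      congr 1
      ext m
      rw [mem_filter, mem_filter, mem_filter]
      constructor
      · rintro ⟨⟨h1, h2⟩, h3⟩
        refine ⟨h1, ?_⟩
        unfold Nat.ModEq
        rw [h3, Nat.mod_eq_of_lt hr.1]
      · rintro ⟨h1, h2⟩
        have h3 : m % d = r := by
          unfold Nat.ModEq at h2
          rw [h2, Nat.mod_eq_of_lt hr.1]
        refine ⟨⟨h1, fun p hp => ?_⟩, h3⟩
        have h4 := hr.2 p hp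
        rw [← h3, hmod m p hp] at h4
        exact h4
    · intro m hm
      rw [mem_filter] at hm
      rw [hT, mem_filter, mem_range]
      refine ⟨Nat.mod_lt _ hd0, fun p hp => ?_⟩
      rw [hmod m p hp]
      exact hm.2 p hp
  have e2 : W * ∏ p ∈ S, ((((range p).filter (fun a => A p a)).card : ℝ) / p) = ∑ _r ∈ T, W / (d : ℝ) := by
    rw [sum_const, nsmul_eq_mul, hcrt, prod_div_distrib, hd]
    push_cast
    ring
  rw [e1, e2, ← sum_sub_distrib]
  refine (abs_sum_le_sum_abs _ _).trans ?_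
  calc ∑ r ∈ T, |∑ m ∈ Ω.filter (fun m => m ≡ r [MOD d]), w m - W / (d : ℝ)| ≤ ∑ _r ∈ T, η :=
        sum_le_sum fun r _ => h r
    _ = (∏ p ∈ S, (((range p).filter (fun a => A p a)).card : ℝ)) * η := by
        rw [sum_const, nsmul_eq_mul, hcrt]
        push_cast
        rfl

open Classical in
/-- **the fundamental lemma with weights** -/
theorem fl_w (κ : ℕ) : ∃ C0 K0 : ℕ, 1 ≤ C0 ∧ 1 ≤ K0 ∧ ∀ b : ℕ, C0 ≤ b → ∀ y : ℕ, 2 ≤ y →
    ∀ (Ω : Finset ℕ) (w : ℕ → ℝ) (W η : ℝ) (P : Finset ℕ) (R : ℕ → ℕ → Prop),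
    (∀ m ∈ Ω, 0 ≤ w m) → 0 ≤ W → 0 ≤ η →
    (∀ p ∈ P, p.Prime ∧ p ≤ y ∧ ((range p).filter (fun a => R p a)).card ≤ κ) →
    (∀ d : ℕ, 1 ≤ d → d ≤ K0 * y ^ (2 * (C0 * b)) → ∀ r : ℕ,
      |∑ m ∈ Ω.filter (fun m => m ≡ r [MOD d]), w m - W / (d : ℝ)| ≤ η) →
    |∑ m ∈ Ω.filter (fun n => ∀ p ∈ P, ¬ R p (n % p)), w m -
        W * ∏ p ∈ P, (1 - (((range p).filter (fun a => R p a)).card : ℝ) / p)| ≤
      (1 / 2 : ℝ) ^ b * (W * ∏ p ∈ P, (1 - (((range p).filter (fun a => R p a)).card : ℝ) / p)) +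
        ((JJ y : ℝ) + 2) * ((y : ℝ) ^ (2 * (C0 * b)) * (K0 * (y : ℝ) ^ (2 * (C0 * b)) * η)) := by
  obtain ⟨C0, hC0, hFL⟩ := Pool.Agent.H20R2.fLem κ
  set z0 := C0 + κ + 1 with hz0
  set K0 : ℕ := ∏ p ∈ (Icc 1 z0).filter Nat.Prime, p with hK0
  have hK01 : 1 ≤ K0 := Nat.pos_of_ne_zero (prod_ne_zero_iff.2 fun p hp => (mem_filter.1 hp).2.ne_zero)
  refine ⟨C0, K0, hC0, hK01, fun b hbC y hy Ω w W η P R hw hW hη hP heq => ?_⟩
  have hPp : ∀ p ∈ P, p.Prime := fun p hp => (hP p hp).1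
  set r : ℕ → ℕ := fun p => ((range p).filter (fun a => R p a)).card with hr
  have hrp : ∀ p, r p ≤ p := by
    intro p
    rw [hr]
    exact (card_filter_le _ _).trans (card_range p).le
  have hrκ : ∀ p ∈ P, r p ≤ κ := fun p hp => (hP p hp).2.2
  set V : Finset ℕ → ℝ := fun S => ∏ p ∈ S, (1 - (r p : ℝ) / p) with hVd
  have hfac : ∀ p : ℕ, 0 ≤ 1 - (r p : ℝ) / p := by
    intro p
    rw [sub_nonneg]
    apply div_le_one_of_le₀ _ (Nat.cast_nonneg _)
    exact_mod_cast hrp p
  have hV0 : ∀ S, 0 ≤ V S := fun S => prod_nonneg fun p _ => hfac p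
  show |∑ m ∈ Ω.filter (fun n => ∀ p ∈ P, ¬ R p (n % p)), w m - W * V P| ≤
      (1 / 2 : ℝ) ^ b * (W * V P) + _
  set J := JJ y with hJ
  set Y : ℕ := 2 ^ 2 ^ J with hY
  have hyY : y < Y := JJ_lt y
  have hYy : Y ≤ y ^ 2 := JJ_le y (by omega)
  obtain ⟨D, hD⟩ : ∃ D : ℕ, D = (2 ^ 2 ^ J) ^ (C0 * b) := ⟨_, rfl⟩
  have hDy : D ≤ y ^ (2 * (C0 * b)) := by
    calc D ≤ (y ^ 2) ^ (C0 * b) := by rw [hD]; exact Nat.pow_le_pow_left hYy _
      _ = y ^ (2 * (C0 * b)) := by rw [← pow_mul]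
  set P0 : Finset ℕ := P.filter (fun p => p ≤ z0) with hP0
  set P1 : Finset ℕ := P.filter (fun p => ¬ p ≤ z0) with hP1
  have hPu : P = P0 ∪ P1 := (filter_union_filter_not_eq _ _).symm
  have hdisj : Disjoint P0 P1 := disjoint_filter_filter_not _ _ _
  have hPp1 : ∀ p ∈ P1, p.Prime ∧ z0 < p ∧ p ≤ Y := by
    intro p hp
    rw [hP1, mem_filter] at hp
    exact ⟨hPp p hp.1, by omega, (((hP p hp.1).2.1).trans hyY.le)⟩
  have hPp0 : ∀ p ∈ P0, p.Prime ∧ p ≤ z0 := by
    intro p hp
    rw [hP0, mem_filter] at hp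
    exact ⟨hPp p hp.1, hp.2⟩
  have hP0K : ∏ p ∈ P0, p ≤ K0 := by
    rw [hK0]
    apply Nat.le_of_dvd (Nat.pos_of_ne_zero (prod_ne_zero_iff.2 fun p hp => (mem_filter.1 hp).2.ne_zero))
    apply prod_dvd_prod_of_subset
    intro p hp
    rw [mem_filter, mem_Icc]
    exact ⟨⟨(hPp0 p hp).1.one_lt.le, (hPp0 p hp).2⟩, (hPp0 p hp).1⟩
  have hV : V P = V P0 * V P1 := by
    show ∏ p ∈ P, (1 - (r p : ℝ) / p) = _
    conv_lhs => rw [hPu]
    rw [prod_union hdisj]
  have key := hFL b J z0 P1 (fun p => (r p : ℝ) / p) hbC (by omega) hPp1 (fun p hp => by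
      have hp0 : (0 : ℝ) < p := by exact_mod_cast (hPp1 p hp).1.pos
      have hp1 : (1 : ℝ) < p := by exact_mod_cast (hPp1 p hp).1.one_lt
      refine ⟨div_nonneg (Nat.cast_nonneg _) hp0.le, ?_⟩
      apply div_le_div₀ (Nat.cast_nonneg _) _ (by linarith) (by linarith)
      exact_mod_cast hrκ p (mem_filter.1 hp).1)
    (Ω.filter (fun n => ∀ p ∈ P0, ¬ R p (n % p))) w
    (fun p n => R p (n % p)) (W * V P0) (fun _ => (K0 * D * η : ℝ))
    (fun m hm => hw m (mem_filter.1 hm).1) (mul_nonneg hW (hV0 _)) (by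
      intro T hT hTD
      have hTp : ∀ p ∈ T, p.Prime := fun p hp => (hPp1 p (hT hp)).1
      have hdT : Disjoint P0 T := disjoint_of_subset_right hT hdisj
      have hTP : ∀ p ∈ P0 ∪ T, p ∈ P := by
        intro p hp
        rcases mem_union.1 hp with h | h
        · exact (mem_filter.1 h).1
        · exact (mem_filter.1 (hT h)).1
      have hdle : ∏ p ∈ P0 ∪ T, p ≤ K0 * y ^ (2 * (C0 * b)) := by
        rw [prod_union hdT]
        exact Nat.mul_le_mul hP0K ((hTD.trans (le_of_eq hD.symm)).trans hDy)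
      have hd1 : 1 ≤ ∏ p ∈ P0 ∪ T, p :=
        Nat.pos_of_ne_zero (prod_ne_zero_iff.2 fun p hp => (hPp p (hTP p hp)).ne_zero)
      obtain ⟨A, hA⟩ : ∃ A : ℕ → ℕ → Prop, ∀ p a, A p a ↔ (if p ≤ z0 then ¬ R p a else R p a) :=
        ⟨fun p a => (if p ≤ z0 then ¬ R p a else R p a), fun _ _ => Iff.rfl⟩
      have h3 := count_w A (P0 ∪ T)
        (fun p hp => hPp p (hTP p hp)) Ω w W η (heq _ hd1 hdle)
      have hTz : ∀ p ∈ T, ¬ p ≤ z0 := fun p hp => by have := (hPp1 p (hT hp)).2.1; omega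
      have hA0 : ∀ p ∈ P0, ∀ a, A p a ↔ ¬ R p a := by
        intro p hp a
        rw [hA, if_pos (hPp0 p hp).2]
      have hA1 : ∀ p ∈ T, ∀ a, A p a ↔ R p a := by
        intro p hp a
        rw [hA, if_neg (hTz p hp)]
      have c1 : ∀ p ∈ P0, (((range p).filter (fun a => A p a)).card : ℝ) = p - r p := by
        intro p hp
        have h4 := card_filter_add_card_filter_not (s := range p) (fun a => R p a)
        rw [card_range] at h4
        have h8 : (range p).filter (fun a => A p a) = (range p).filter (fun a => ¬ R p a) :=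
          filter_congr fun a _ => hA0 p hp a
        have h7 : ((r p : ℕ) : ℝ) + (((range p).filter (fun a => ¬ R p a)).card : ℝ) = p := by exact_mod_cast h4
        rw [h8]
        linarith
      have c2 : ∀ p ∈ T, (((range p).filter (fun a => A p a)).card : ℝ) = r p := by
        intro p hp
        have h8 : (range p).filter (fun a => A p a) = (range p).filter (fun a => R p a) :=
          filter_congr fun a _ => hA1 p hp a
        rw [h8]
      rw [prod_union hdT, prod_union hdT] at h3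
      have e1 : ∏ p ∈ P0, ((((range p).filter (fun a => A p a)).card : ℝ) / p) = V P0 := by
        apply prod_congr rfl
        intro p hp
        rw [c1 p hp]
        have hp0 : (p : ℝ) ≠ 0 := by exact_mod_cast (hPp0 p hp).1.ne_zero
        field_simp
      have e2 : ∏ p ∈ T, ((((range p).filter (fun a => A p a)).card : ℝ) / p) =
          ∏ p ∈ T, ((r p : ℝ) / p) := by
        apply prod_congr rfl
        intro p hp
        rw [c2 p hp]
      have e3 : ∏ p ∈ P0, (((range p).filter (fun a => A p a)).card : ℝ) ≤ K0 := by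
        have h5 : ∏ p ∈ P0, (((range p).filter (fun a => A p a)).card : ℝ) ≤ ∏ p ∈ P0, (p : ℝ) := by
          apply prod_le_prod (fun _ _ => Nat.cast_nonneg _)
          intro p hp
          rw [c1 p hp]
          have : (0 : ℝ) ≤ r p := Nat.cast_nonneg _
          linarith
        refine h5.trans ?_
        have h9 : ((∏ p ∈ P0, p : ℕ) : ℝ) ≤ (K0 : ℝ) := by exact_mod_cast hP0K
        rwa [Nat.cast_prod] at h9
      have e4 : ∏ p ∈ T, (((range p).filter (fun a => A p a)).card : ℝ) ≤ D := by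
        calc ∏ p ∈ T, (((range p).filter (fun a => A p a)).card : ℝ)
            ≤ ∏ p ∈ T, (p : ℝ) := by
              apply prod_le_prod (fun _ _ => Nat.cast_nonneg _)
              intro p hp
              rw [c2 p hp]
              exact_mod_cast hrp p
          _ = ((∏ p ∈ T, p : ℕ) : ℝ) := by push_cast; rfl
          _ ≤ D := by
              rw [hD]
              exact_mod_cast hTD
      rw [e1, e2] at h3
      have e5 : ∑ m ∈ (Ω.filter (fun n => ∀ p ∈ P0, ¬ R p (n % p))).filter (fun m => ∀ p ∈ T, R p (m % p)), w m =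
          ∑ m ∈ Ω.filter (fun n => ∀ p ∈ P0 ∪ T, A p (n % p)), w m := by
        rw [filter_filter]
        congr 1
        apply filter_congr
        intro n _
        constructor
        · rintro ⟨h5, h6⟩
          intro p hp
          rcases mem_union.1 hp with h | h
          · exact (hA0 p h _).2 (h5 p h)
          · exact (hA1 p h _).2 (h6 p h)
        · intro h5
          refine ⟨?_, ?_⟩
          · intro p hp
            exact (hA0 p hp _).1 (h5 p (mem_union_left _ hp))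
          · intro p hp
            exact (hA1 p hp _).1 (h5 p (mem_union_right _ hp))
      have h6 := h3.trans (mul_le_mul_of_nonneg_right
        (mul_le_mul e3 e4 (prod_nonneg fun _ _ => Nat.cast_nonneg _) (Nat.cast_nonneg _)) hη)
      rw [← e5] at h6
      rw [mul_assoc]
      exact h6)
  have f1 : ∑ m ∈ (Ω.filter (fun n => ∀ p ∈ P0, ¬ R p (n % p))).filter (fun m => ∀ p ∈ P1, ¬ R p (m % p)), w m =
      ∑ m ∈ Ω.filter (fun n : ℕ => ∀ p ∈ P, ¬ R p (n % p)), w m := by
    rw [filter_filter]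
    congr 1
    apply filter_congr
    intro n _
    conv_rhs => rw [hPu]
    constructor
    · rintro ⟨h5, h6⟩
      intro p hp
      rcases mem_union.1 hp with h | h
      · exact h5 p h
      · exact h6 p h
    · intro h
      exact ⟨fun p hp => h p (mem_union_left _ hp), fun p hp => h p (mem_union_right _ hp)⟩
  have f2 : W * V P0 * ∏ p ∈ P1, (1 - (r p : ℝ) / p) = W * V P := by
    rw [hV, mul_assoc]
  rw [f2] at key
  have key2 : |∑ m ∈ Ω.filter (fun n : ℕ => ∀ p ∈ P, ¬ R p (n % p)), w m - W * V P| ≤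
      (1 / 2 : ℝ) ^ b * (W * V P) + ((J : ℝ) + 2) *
        ∑ T ∈ P1.powerset.filter (fun T : Finset ℕ => ∏ p ∈ T, p ≤ (2 ^ 2 ^ J) ^ (C0 * b)), (K0 * D * η : ℝ) := by
    rw [← f1]
    refine le_trans (le_of_eq ?_) key
    congr 2
  refine key2.trans ?_
  have hcard : (P1.powerset.filter (fun T : Finset ℕ => ∏ p ∈ T, p ≤ D)).card ≤ D := by
    calc _ ≤ (Icc 1 D).card := by
          apply card_le_card_of_injOn (fun T : Finset ℕ => ∏ p ∈ T, p)
          · intro T hT
            rw [mem_coe, mem_filter, mem_powerset] at hT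
            have h5 : 1 ≤ ∏ p ∈ T, p := Nat.pos_of_ne_zero (prod_ne_zero_iff.2 fun p hp => (hPp1 p (hT.1 hp)).1.ne_zero)
            exact mem_coe.2 (mem_Icc.2 ⟨h5, hT.2⟩)
          · intro S hS S' hS' h
            rw [mem_coe, mem_filter, mem_powerset] at hS hS'
            have hSp : ∀ p ∈ S, p.Prime := fun p hp => (hPp1 p (hS.1 hp)).1
            have hSp' : ∀ p ∈ S', p.Prime := fun p hp => (hPp1 p (hS'.1 hp)).1
            simp only at h
            ext p
            constructor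
            · intro hp
              have h1 : p ∣ ∏ p ∈ S', p := h ▸ dvd_prod_of_mem _ hp
              obtain ⟨p', hp', hd⟩ := (Nat.Prime.prime (hSp p hp)).exists_mem_finset_dvd h1
              rw [Nat.prime_dvd_prime_iff_eq (hSp p hp) (hSp' p' hp')] at hd
              exact hd ▸ hp'
            · intro hp
              have h1 : p ∣ ∏ p ∈ S, p := h ▸ dvd_prod_of_mem _ hp
              obtain ⟨p', hp', hd⟩ := (Nat.Prime.prime (hSp' p hp)).exists_mem_finset_dvd h1
              rw [Nat.prime_dvd_prime_iff_eq (hSp' p hp) (hSp p' hp')] at hd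
              exact hd ▸ hp'
      _ = D := by simp
  apply add_le_add_right
  apply mul_le_mul_of_nonneg_left _ (by positivity)
  rw [sum_const, nsmul_eq_mul]
  have hDr : (D : ℝ) ≤ (y : ℝ) ^ (2 * (C0 * b)) := by exact_mod_cast hDy
  apply mul_le_mul _ _ (by positivity) (by positivity)
  · refine le_trans ?_ hDr
    rw [← hD]
    exact_mod_cast hcard
  · apply mul_le_mul_of_nonneg_right _ hη
    exact mul_le_mul_of_nonneg_left hDr (Nat.cast_nonneg _)

end Pool.Agent.N740.PA
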