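import Pool.Agent.N740.PA.One

/-!
Assembly: primes at the values of `a t² + b t + c` with weights on the arguments, for almost all `c`.
-/

set_option autoImplicit false

namespace Pool.Agent.N740.PA

open Finset Filter Topology
open Pool.Agent.W468.ConjF (SJ PJ PJ_le PJ_tendsto)
open Pool.Agent.H373R2.T7 (pz Vz lamz Vz_pos Vz_inv_small nuB nuB_le mem_pz)
open Pool.Agent.R460.SB (Sz Sz_prod Sz_bd Sz_low loc_lt QS QS_per QS_few fv wl wl_bd wl_mono fv_two)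
open Pool.Agent.R460.SC (tail_class Sz_split PJ_lim)
open Pool.Agent.TH892.SW (ff ffn wt)

/-- the indicator function of the primes -/
noncomputable def ip (v : ℤ) : ℝ := if v.toNat.Prime then 1 else 0

lemma ff_eq {a b c : ℤ} (ha : 0 < a) (hc : b ^ 2 + 2 ≤ c) (z t : ℕ) :
    ff z (g a b t + c) = ip (fv (-a) (-b) c t) - lamz z (fv (-a) (-b) c t).toNat * wt (fv (-a) (-b) c t).toNat := by
  have e : g a b t + c = fv (-a) (-b) c t := by
    unfold g fv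
    ring
  rw [e]
  unfold ff
  rw [if_pos (fv_two ha hc t)]
  rfl

/-- the conclusion for one constant term, with equidistributed weights -/
def GoodW (a b : ℤ) (ε : ℝ) (C X : ℕ) (w : ℕ → ℝ) (c : ℤ) : Prop :=
  ∃ s : ℝ, Tendsto (fun z : ℕ => Sz (-a) (-b) c z) atTop (𝓝 s) ∧ 0 ≤ s ∧
  ((∀ p : ℕ, p.Prime → ∃ m : ℕ, ¬ (p : ℤ) ∣ fv (-a) (-b) c m) → 1 / Real.log X ^ 3 ≤ s) ∧
  ∀ y : ℕ, y ^ 2 ≤ X →
    |∑ t ∈ Icc 1 y, w t * ip (fv (-a) (-b) c t) - s * ∑ t ∈ Icc 1 y, w t * wl a b c t| ≤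
      ε * (s * ∑ t ∈ Icc 1 y, w t * wl a b c t) + √(X : ℝ) / Real.log X ^ C

/-- equidistribution of the weights -/
def Equi (X B : ℕ) (w : ℕ → ℝ) : Prop :=
  ∀ d : ℕ, 1 ≤ d → (d : ℝ) ≤ Real.log X ^ B → ∀ r y : ℕ, y ^ 2 ≤ X →
      |∑ t ∈ (Icc 1 y).filter (fun t => t ≡ r [MOD d]), w t - (∑ t ∈ Icc 1 y, w t) / (d : ℝ)| ≤
        √(X : ℝ) / Real.log X ^ B

open Classical in
/-- **almost all constant terms, with equidistributed weights on the arguments** -/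
theorem asm (a b : ℤ) (ha : 0 < a) (A C : ℕ) (ε : ℝ) (hε : 0 < ε) :
    ∃ B X0 : ℕ, ∀ X : ℕ, X0 ≤ X → ∀ w : ℕ → ℝ, (∀ t, 0 ≤ w t ∧ w t ≤ 1) → Equi X B w →
    (((Icc 1 (X : ℤ)).filter (fun c : ℤ => ¬ GoodW a b ε C X w c)).card : ℝ) ≤ X / Real.log X ^ A := by
  obtain ⟨E1, hmost⟩ := most a b ha (A + 1) (C + 2)
  obtain ⟨U, hU⟩ : ∃ U, U = A + C + 4 := ⟨_, rfl⟩
  obtain ⟨E, hE⟩ : ∃ E, E = E1 + 3 * (U + 1) + 5 := ⟨_, rfl⟩
  obtain ⟨X1, h1⟩ := hmost E (by omega)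
  obtain ⟨B, X2, h2⟩ := one_c a b ha (C + 2) E (ε / 4) (by positivity)
  obtain ⟨X3, h3⟩ := tail_class a ha b (1 / 4) (by norm_num) U E
  obtain ⟨N4, hN4⟩ := Vz_inv_small E
  obtain ⟨κ, hκ⟩ : ∃ κ : ℝ, κ = (1 / ((-a).natAbs : ℝ)) ^ (-a).natAbs := ⟨_, rfl⟩
  have ha1 : (1 : ℝ) ≤ (-a).natAbs := by exact_mod_cast Int.natAbs_pos.2 (by omega)
  have hκ0 : 0 < κ := by rw [hκ]; positivity
  have hev : ∀ᶠ X : ℕ in atTop, (1000 + a + b ^ 2 + 2 / κ : ℝ) ≤ Real.log X ∧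
      Real.log X ^ (A + 4) ≤ (X : ℝ) ^ (1 / 2 : ℝ) ∧ X1 + X2 + X3 + N4 + 2 ≤ X := by
    filter_upwards [evt_log_ge (1000 + a + b ^ 2 + 2 / κ), evt_log_pow (A + 4) (1 / 2) (by norm_num),
      eventually_ge_atTop (X1 + X2 + X3 + N4 + 2)] with X h1 h2 h3
    exact ⟨h1, h2, h3⟩
  obtain ⟨X0, hX0⟩ := eventually_atTop.1 hev
  refine ⟨B, X0, fun X hX w hw hequi => ?_⟩
  obtain ⟨hL, hLA, hXN⟩ := hX0 X hX
  rw [← Real.sqrt_eq_rpow] at hLA
  have har : (0 : ℝ) < a := by exact_mod_cast ha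
  have hbr : (0 : ℝ) ≤ (b : ℝ) ^ 2 := sq_nonneg _
  have hκ2 : 0 < 2 / κ := by positivity
  have h1' := h1 X (by omega) w (fun t => by rw [abs_of_nonneg (hw t).1]; exact (hw t).2)
  obtain ⟨z, hz⟩ : ∃ z, z = ⌊Real.log X ^ E⌋₊ := ⟨_, rfl⟩
  obtain ⟨L, hLd⟩ : ∃ L, L = Real.log X := ⟨_, rfl⟩
  have hL100 : 1000 ≤ Real.log X := by linarith
  have hL0 : 0 < Real.log X := by linarith
  have hL1 : 1 ≤ Real.log X := by linarith
  have hLp0 : ∀ n : ℕ, 0 < Real.log X ^ n := fun n => by positivity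
  have hzle : (z : ℝ) ≤ Real.log X ^ E := by rw [hz]; exact Nat.floor_le (by positivity)
  have hzge : Real.log X ^ (3 * (U + 1) + 4) ≤ z := by
    have h4 := Nat.lt_floor_add_one (Real.log X ^ E)
    rw [← hz] at h4
    have h5 : Real.log X ^ (3 * (U + 1) + 5) ≤ Real.log X ^ E := pow_le_pow_right₀ hL1 (by omega)
    have h6 : Real.log X ^ (3 * (U + 1) + 5) = Real.log X * Real.log X ^ (3 * (U + 1) + 4) := by ring
    have h7 : 1 ≤ Real.log X ^ (3 * (U + 1) + 4) := one_le_pow₀ hL1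
    nlinarith
  have hzC : Real.log X ^ (C + 4) ≤ z := by
    refine le_trans ?_ hzge
    exact pow_le_pow_right₀ hL1 (by omega)
  have hzL : Real.log X ≤ z := by
    refine le_trans ?_ hzC
    exact le_self_pow₀ hL1 (by omega)
  have hz3 : 3 ≤ z := by
    have : (3 : ℝ) ≤ z := by linarith
    exact_mod_cast this
  have haz : a ≤ z := by
    have : (a : ℝ) ≤ z := by linarith
    exact_mod_cast this
  have hV := hN4 X (by omega) z (by omega) hzle
  obtain ⟨Ex, hEx1, hEx2⟩ := h3 X (by omega) z hzge hzle 1 le_rfl (by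
    rw [Nat.cast_one]
    apply Real.one_le_rpow _ (by norm_num)
    exact_mod_cast (by omega : 1 ≤ X)) 0
  have hX1 : 1 ≤ X := by omega
  have hXr : (1 : ℝ) ≤ X := by exact_mod_cast hX1
  have hX0r : (0 : ℝ) < X := by linarith
  -- the good ones
  have hgood : ∀ c : ℤ, 1 ≤ c → c ≤ X → b ^ 2 + 2 ≤ c → c ∉ Ex →
      (¬ ∃ y : ℕ, y ^ 2 ≤ X ∧ √(X : ℝ) / Real.log X ^ (C + 2) <
        |∑ t ∈ Icc 1 y, w t * ff ⌊Real.log X ^ E⌋₊ (g a b t + c)|) → GoodW a b ε C X w c := by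
    intro c hc1 hcX hcb hcE hc
    push Not at hc
    obtain ⟨hsq, htail⟩ := hEx2 c hc1 hcX (by rw [Nat.cast_one]; exact Int.modEq_one) hcE
    have hU0 : 0 < Real.log X ^ U := hLp0 U
    have hUC : Real.log X ^ (C + 4) ≤ Real.log X ^ U := pow_le_pow_right₀ hL1 (by omega)
    have hC40 : 0 < Real.log X ^ (C + 4) := hLp0 _
    have hz0 : (0 : ℝ) < z := by linarith
    have hUtail : 1 / Real.log X ^ U ≤ 1 / Real.log X ^ (C + 4) := one_div_le_one_div_of_le hC40 hUC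
    have h5z : 5 / (z : ℝ) ≤ 5 / Real.log X ^ (C + 4) := div_le_div_of_nonneg_left (by norm_num) hC40 hzC
    have hLP : Real.log X ≤ Real.log X ^ (C + 4) := le_self_pow₀ hL1 (by omega)
    have h6 : 1 / Real.log X ^ (C + 4) + 5 / z ≤ 6 / Real.log X ^ (C + 4) := by
      have : 6 / Real.log X ^ (C + 4) = 1 / Real.log X ^ (C + 4) + 5 / Real.log X ^ (C + 4) := by ring
      linarith
    have h7 : 6 / Real.log X ^ (C + 4) ≤ 1 / 100 := by
      rw [div_le_div_iff₀ hC40 (by norm_num)]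
      linarith
    obtain ⟨ℓ, hℓ0, hℓ, hℓ1⟩ := PJ_lim hsq (by omega : 2 ≤ z) (δ := 1 / Real.log X ^ (C + 4)) (by positivity)
      (by linarith) (htail.mono fun N hN => hN.trans hUtail)
    obtain ⟨s, hs⟩ : ∃ s, s = Sz (-a) (-b) c z := ⟨_, rfl⟩
    obtain ⟨hs0, hsV⟩ := Sz_bd (-a) (-b) c z
    have hlow : (∀ p : ℕ, p.Prime → ∃ m : ℕ, ¬ (p : ℤ) ∣ fv (-a) (-b) c m) → κ * Vz z ^ 2 ≤ s := by
      intro hfix
      rw [hs, hκ]
      exact Sz_low (by omega) c z fun p hp => loc_lt (mem_pz.1 hp).2 (hfix p (mem_pz.1 hp).2)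
    rw [← hs] at hs0 hsV
    have hℓhalf : 1 / 2 ≤ ℓ := by
      have := (abs_le.1 hℓ1).1
      linarith
    have hℓ12 : |ℓ - 1| ≤ 12 / Real.log X ^ (C + 4) := by
      refine hℓ1.trans ?_
      have : 12 / Real.log X ^ (C + 4) = 2 * (6 / Real.log X ^ (C + 4)) := by ring
      linarith
    refine ⟨s * ℓ, ?_, mul_nonneg hs0 hℓ0.le, ?_, ?_⟩
    · rw [hs]
      refine (hℓ.const_mul (Sz (-a) (-b) c z)).congr' ?_
      filter_upwards [eventually_ge_atTop z] with M hM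
      rw [Sz_split ha (by omega) haz hM]
    · intro hfix
      have h8 := hlow hfix
      have hVp := Vz_pos z
      have h9 : 1 / Real.log X ≤ Vz z := by
        rw [div_le_iff₀ hL0]
        have h10 : Vz z * (Vz z)⁻¹ = 1 := mul_inv_cancel₀ hVp.ne'
        nlinarith
      have h11 : (1 / Real.log X) ^ 2 ≤ Vz z ^ 2 := pow_le_pow_left₀ (by positivity) h9 2
      have h12 : 2 / Real.log X ≤ κ := by
        rw [div_le_iff₀ hL0]
        have h13 : 2 / κ ≤ Real.log X := by linarith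
        rw [div_le_iff₀ hκ0] at h13
        linarith
      calc 1 / Real.log X ^ 3 = (2 / Real.log X) * (1 / Real.log X) ^ 2 * (1 / 2) := by
            field_simp
            try ring
        _ ≤ κ * Vz z ^ 2 * (1 / 2) := by gcongr
        _ ≤ s * ℓ := by
            apply mul_le_mul h8 hℓhalf (by norm_num) hs0
    · intro y hy
      have hS0 : 0 < √(X : ℝ) := Real.sqrt_pos.2 hX0r
      have g1 := hc y hy
      rw [← hz] at g1
      have g2 := h2 X (by omega) z hz3 hzle w hw hequi c hcb y hy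
      rw [← hs] at g2
      obtain ⟨T, hT⟩ : ∃ T, T = ∑ t ∈ Icc 1 y, w t * wl a b c t := ⟨_, rfl⟩
      rw [← hT] at g2 ⊢
      have hT0 : 0 ≤ T := by
        rw [hT]
        exact sum_nonneg fun t _ => mul_nonneg (hw t).1 (wl_bd ha hcb t).1.le
      have hyS : (y : ℝ) ≤ √(X : ℝ) := by
        apply Real.le_sqrt_of_sq_le
        exact_mod_cast hy
      have hT2 : T ≤ 2 * √(X : ℝ) := by
        rw [hT]
        calc ∑ t ∈ Icc 1 y, w t * wl a b c t ≤ ∑ _t ∈ Icc 1 y, (2 : ℝ) := by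
              refine sum_le_sum fun t _ => ?_
              obtain ⟨p1, p2⟩ := wl_bd ha hcb t
              have := mul_le_mul (hw t).2 p2 p1.le (by norm_num)
              linarith
          _ = y * 2 := by rw [sum_const, Nat.card_Icc, nsmul_eq_mul, Nat.add_sub_cancel]
          _ ≤ _ := by linarith
      have e1 : ∑ t ∈ Icc 1 y, w t * ff z (g a b t + c) = ∑ t ∈ Icc 1 y, w t * ip (fv (-a) (-b) c t) -
          ∑ t ∈ Icc 1 y, w t * (lamz z (fv (-a) (-b) c t).toNat * wt (fv (-a) (-b) c t).toNat) := by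
        rw [← sum_sub_distrib]
        apply sum_congr rfl
        intro t _
        rw [ff_eq ha hcb]
        ring
      rw [e1] at g1
      obtain ⟨P1, hP1⟩ : ∃ P1, P1 = ∑ t ∈ Icc 1 y, w t * ip (fv (-a) (-b) c t) := ⟨_, rfl⟩
      obtain ⟨M1, hM1⟩ : ∃ M1, M1 = ∑ t ∈ Icc 1 y, w t * (lamz z (fv (-a) (-b) c t).toNat * wt (fv (-a) (-b) c t).toNat) := ⟨_, rfl⟩
      rw [← hM1] at g1 g2
      rw [← hP1] at g1 ⊢
      have e2 : P1 - s * ℓ * T = (P1 - M1) + (M1 - s * T) + s * (1 - ℓ) * T := by ring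
      rw [e2]
      refine (abs_add_le _ _).trans ((add_le_add_left (abs_add_le _ _) _).trans ?_)
      have g3 : |s * (1 - ℓ) * T| ≤ √(X : ℝ) / Real.log X ^ (C + 2) := by
        rw [abs_mul, abs_mul, abs_of_nonneg hs0, abs_of_nonneg hT0, abs_sub_comm]
        calc s * |ℓ - 1| * T ≤ Real.log X * (12 / Real.log X ^ (C + 4)) * (2 * √(X : ℝ)) := by
              gcongr
              exact hsV.trans hV
          _ = √(X : ℝ) / Real.log X ^ (C + 2) * (24 / Real.log X) := by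
              rw [show C + 4 = (C + 2) + 2 by ring, pow_add _ (C + 2) 2]
              field_simp
              try ring
          _ ≤ √(X : ℝ) / Real.log X ^ (C + 2) * 1 := by
              apply mul_le_mul_of_nonneg_left _ (by positivity)
              rw [div_le_one hL0]
              linarith
          _ = _ := mul_one _
      have g4 : ε / 4 * (s * T) ≤ ε * (s * ℓ * T) := by
        have h20 : s * T * (1 / 4) ≤ s * ℓ * T := by
          have h21 : 0 ≤ s * T := mul_nonneg hs0 hT0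
          nlinarith
        have := mul_le_mul_of_nonneg_left h20 hε.le
        linarith
      have g5 : √(X : ℝ) / Real.log X ^ (C + 2) ≤ √(X : ℝ) / Real.log X ^ C / 3 := by
        rw [div_div, div_le_div_iff₀ (by positivity) (by positivity), pow_add]
        have h22 : 0 < √(X : ℝ) * Real.log X ^ C := by positivity
        have h23 : 3 ≤ Real.log X ^ 2 := by nlinarith
        nlinarith
      linarith
  have hsub : (Icc 1 (X : ℤ)).filter (fun c : ℤ => ¬ GoodW a b ε C X w c) ⊆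
      (Icc 1 (b ^ 2 + 1)) ∪ Ex ∪ (Icc 1 (X : ℤ)).filter (fun c : ℤ => ∃ y : ℕ, y ^ 2 ≤ X ∧
        √(X : ℝ) / Real.log X ^ (C + 2) <
        |∑ t ∈ Icc 1 y, w t * ff ⌊Real.log X ^ E⌋₊ (g a b t + c)|) := by
    intro c hc
    rw [mem_filter, mem_Icc] at hc
    rw [mem_union, mem_union, mem_filter, mem_Icc, mem_Icc]
    by_contra hcon
    push Not at hcon
    obtain ⟨⟨q1, q2⟩, q3⟩ := hcon
    have q4 : b ^ 2 + 2 ≤ c := by
      have := q1 hc.1.1
      omega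
    exact hc.2 (hgood c hc.1.1 hc.1.2 q4 q2 (fun ⟨y, hy1, hy2⟩ => by
      have := q3 hc.1 y hy1
      linarith))
  have hcard : (((Icc 1 (X : ℤ)).filter (fun c : ℤ => ¬ GoodW a b ε C X w c)).card : ℝ) ≤
      (b ^ 2 + 1) + X / Real.log X ^ (A + 1) + X / Real.log X ^ (A + 1) := by
    have k1 := card_le_card hsub
    have k2 := card_union_le ((Icc 1 (b ^ 2 + 1)) ∪ Ex) ((Icc 1 (X : ℤ)).filter (fun c : ℤ => ∃ y : ℕ, y ^ 2 ≤ X ∧
        √(X : ℝ) / Real.log X ^ (C + 2) <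
        |∑ t ∈ Icc 1 y, w t * ff ⌊Real.log X ^ E⌋₊ (g a b t + c)|))
    have k3 := card_union_le (Icc 1 (b ^ 2 + 1)) Ex
    have k4 : ((Icc 1 (b ^ 2 + 1)).card : ℝ) = (b : ℝ) ^ 2 + 1 := by
      rw [Int.card_Icc]
      have : ((b ^ 2 + 1 + 1 - 1 : ℤ).toNat : ℤ) = b ^ 2 + 1 := by
        rw [Int.toNat_of_nonneg (by nlinarith [sq_nonneg b])]
        ring
      exact_mod_cast this
    have k5 : (Ex.card : ℝ) ≤ X / Real.log X ^ (A + 1) := by
      refine hEx1.trans ?_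
      rw [Nat.cast_one, one_mul]
      apply div_le_div_of_nonneg_left hX0r.le (hLp0 _)
      exact pow_le_pow_right₀ hL1 (by omega)
    have k6 : (((Icc 1 (X : ℤ)).filter (fun c : ℤ => ¬ GoodW a b ε C X w c)).card : ℝ) ≤
        ((Icc 1 (b ^ 2 + 1)).card : ℝ) + Ex.card + ((Icc 1 (X : ℤ)).filter (fun c : ℤ => ∃ y : ℕ, y ^ 2 ≤ X ∧
        √(X : ℝ) / Real.log X ^ (C + 2) <
        |∑ t ∈ Icc 1 y, w t * ff ⌊Real.log X ^ E⌋₊ (g a b t + c)|)).card := by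
      exact_mod_cast k1.trans (k2.trans (by omega))
    linarith
  refine hcard.trans ?_
  have hSS : √(X : ℝ) * √(X : ℝ) = X := Real.mul_self_sqrt hX0r.le
  have hLA1 : Real.log X ^ (A + 4) ≤ X := by
    have h30 : √(X : ℝ) ≤ X := by
      have : 1 ≤ √(X : ℝ) := Real.one_le_sqrt.2 hXr
      nlinarith
    linarith
  have k7 : (b : ℝ) ^ 2 + 1 ≤ X / Real.log X ^ (A + 1) := by
    rw [le_div_iff₀ (hLp0 _)]
    calc ((b : ℝ) ^ 2 + 1) * Real.log X ^ (A + 1) ≤ Real.log X * Real.log X ^ (A + 1) := by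
          gcongr; linarith
      _ = Real.log X ^ (A + 2) := by ring
      _ ≤ Real.log X ^ (A + 4) := pow_le_pow_right₀ hL1 (by omega)
      _ ≤ X := hLA1
  have k8 : X / Real.log X ^ (A + 1) ≤ X / Real.log X ^ A / 3 := by
    rw [div_div, div_le_div_iff₀ (by positivity) (by positivity), pow_succ]
    have h22 : 0 < X * Real.log X ^ A := by positivity
    nlinarith
  linarith

/-- **arbitrary weights** -/
theorem arb (a b : ℤ) (ha : 0 < a) (A C : ℕ) : ∃ E1 : ℕ, ∀ E : ℕ, E1 ≤ E → ∃ X0 : ℕ, ∀ X : ℕ, X0 ≤ X →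
    ∀ w : ℕ → ℝ, (∀ t, |w t| ≤ 1) → ∃ Ex : Finset ℤ, (Ex.card : ℝ) ≤ X / Real.log X ^ A ∧
    ∀ c : ℤ, 1 ≤ c → c ≤ X → c ∉ Ex → b ^ 2 + 2 ≤ c ∧ ∀ y : ℕ, y ^ 2 ≤ X →
      |∑ t ∈ Icc 1 y, w t * ip (fv (-a) (-b) c t) -
        ∑ t ∈ Icc 1 y, w t * (lamz ⌊Real.log X ^ E⌋₊ (fv (-a) (-b) c t).toNat * wt (fv (-a) (-b) c t).toNat)| ≤
      √(X : ℝ) / Real.log X ^ C := by
  classical
  obtain ⟨E1, hmost⟩ := most a b ha (A + 1) C
  refine ⟨E1, fun E hE => ?_⟩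
  obtain ⟨X1, h1⟩ := hmost E hE
  have hev : ∀ᶠ X : ℕ in atTop, (1000 + b ^ 2 : ℝ) ≤ Real.log X ∧
      Real.log X ^ (A + 4) ≤ (X : ℝ) ^ (1 / 2 : ℝ) ∧ X1 + 2 ≤ X := by
    filter_upwards [evt_log_ge (1000 + b ^ 2), evt_log_pow (A + 4) (1 / 2) (by norm_num),
      eventually_ge_atTop (X1 + 2)] with X h1 h2 h3
    exact ⟨h1, h2, h3⟩
  obtain ⟨X0, hX0⟩ := eventually_atTop.1 hev
  refine ⟨X0, fun X hX w hw => ?_⟩
  obtain ⟨hL, hLA, hXN⟩ := hX0 X hX
  rw [← Real.sqrt_eq_rpow] at hLA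
  have hbr : (0 : ℝ) ≤ (b : ℝ) ^ 2 := sq_nonneg _
  have h1' := h1 X (by omega) w hw
  have hL0 : 0 < Real.log X := by linarith
  have hL1 : 1 ≤ Real.log X := by linarith
  have hLp0 : ∀ n : ℕ, 0 < Real.log X ^ n := fun n => by positivity
  have hX1 : 1 ≤ X := by omega
  have hXr : (1 : ℝ) ≤ X := by exact_mod_cast hX1
  have hX0r : (0 : ℝ) < X := by linarith
  refine ⟨(Icc 1 (b ^ 2 + 1)) ∪ (Icc 1 (X : ℤ)).filter (fun c : ℤ => ∃ y : ℕ, y ^ 2 ≤ X ∧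
        √(X : ℝ) / Real.log X ^ C <
        |∑ t ∈ Icc 1 y, w t * ff ⌊Real.log X ^ E⌋₊ (g a b t + c)|), ?_, ?_⟩
  · have k3 := card_union_le (Icc 1 (b ^ 2 + 1)) ((Icc 1 (X : ℤ)).filter (fun c : ℤ => ∃ y : ℕ, y ^ 2 ≤ X ∧
        √(X : ℝ) / Real.log X ^ C <
        |∑ t ∈ Icc 1 y, w t * ff ⌊Real.log X ^ E⌋₊ (g a b t + c)|))
    have k4 : ((Icc 1 (b ^ 2 + 1)).card : ℝ) = (b : ℝ) ^ 2 + 1 := by
      rw [Int.card_Icc]
      have : ((b ^ 2 + 1 + 1 - 1 : ℤ).toNat : ℤ) = b ^ 2 + 1 := by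
        rw [Int.toNat_of_nonneg (by nlinarith [sq_nonneg b])]
        ring
      exact_mod_cast this
    have k6 : (((Icc 1 (b ^ 2 + 1)) ∪ (Icc 1 (X : ℤ)).filter (fun c : ℤ => ∃ y : ℕ, y ^ 2 ≤ X ∧
        √(X : ℝ) / Real.log X ^ C <
        |∑ t ∈ Icc 1 y, w t * ff ⌊Real.log X ^ E⌋₊ (g a b t + c)|)).card : ℝ) ≤
        ((Icc 1 (b ^ 2 + 1)).card : ℝ) + ((Icc 1 (X : ℤ)).filter (fun c : ℤ => ∃ y : ℕ, y ^ 2 ≤ X ∧
        √(X : ℝ) / Real.log X ^ C <
        |∑ t ∈ Icc 1 y, w t * ff ⌊Real.log X ^ E⌋₊ (g a b t + c)|)).card := by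
      exact_mod_cast k3
    have hSS : √(X : ℝ) * √(X : ℝ) = X := Real.mul_self_sqrt hX0r.le
    have hLA1 : Real.log X ^ (A + 4) ≤ X := by
      have h30 : √(X : ℝ) ≤ X := by
        have : 1 ≤ √(X : ℝ) := Real.one_le_sqrt.2 hXr
        nlinarith
      linarith
    have k7 : (b : ℝ) ^ 2 + 1 ≤ X / Real.log X ^ (A + 1) := by
      rw [le_div_iff₀ (hLp0 _)]
      calc ((b : ℝ) ^ 2 + 1) * Real.log X ^ (A + 1) ≤ Real.log X * Real.log X ^ (A + 1) := by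
            gcongr; linarith
        _ = Real.log X ^ (A + 2) := by ring
        _ ≤ Real.log X ^ (A + 4) := pow_le_pow_right₀ hL1 (by omega)
        _ ≤ X := hLA1
    have k8 : X / Real.log X ^ (A + 1) ≤ X / Real.log X ^ A / 3 := by
      rw [div_div, div_le_div_iff₀ (by positivity) (by positivity), pow_succ]
      have h22 : 0 < X * Real.log X ^ A := by positivity
      nlinarith
    have k9 : 0 < X / Real.log X ^ A := by positivity
    linarith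
  · intro c hc1 hcX hc
    rw [mem_union, mem_filter, mem_Icc, mem_Icc] at hc
    push Not at hc
    obtain ⟨q1, q2⟩ := hc
    have hcb : b ^ 2 + 2 ≤ c := by
      have := q1 hc1
      omega
    refine ⟨hcb, fun y hy => ?_⟩
    have g1 := q2 ⟨hc1, hcX⟩ y hy
    have e1 : ∑ t ∈ Icc 1 y, w t * ff ⌊Real.log X ^ E⌋₊ (g a b t + c) = ∑ t ∈ Icc 1 y, w t * ip (fv (-a) (-b) c t) -
        ∑ t ∈ Icc 1 y, w t * (lamz ⌊Real.log X ^ E⌋₊ (fv (-a) (-b) c t).toNat * wt (fv (-a) (-b) c t).toNat) := by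
      rw [← sum_sub_distrib]
      apply sum_congr rfl
      intro t _
      rw [ff_eq ha hcb]
      ring
    rwa [e1] at g1

end Pool.Agent.N740.PA
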