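import Pool.Agent.N740.PA.Lio

/-!
Prime values at arguments with a prescribed value of the Liouville function.
-/

set_option autoImplicit false

namespace Pool.Agent.N740.PA

open Finset Filter Topology
open Pool.Agent.R460.SB (Sz fv wl wl_bd wl_mono fv_two)

/-- the Liouville function against `1 / log f` -/
lemma lio_wl {a b c : ℤ} (ha : 0 < a) (hc : b ^ 2 + 2 ≤ c) {X y : ℕ} (hy : y ^ 2 ≤ X) {M : ℝ} (hM0 : 0 ≤ M)
    (hM : ∀ k : ℕ, k ^ 2 ≤ X → |∑ t ∈ Icc 1 k, lio t| ≤ M) :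
    |∑ t ∈ Icc 1 y, lio t * wl a b c t| ≤ 4 * M + 2 * b.natAbs := by
  obtain ⟨m, hm⟩ : ∃ m, m = b.natAbs := ⟨_, rfl⟩
  rw [← hm]
  have hω0 : ∀ t, 0 ≤ wl a b c t := fun t => (wl_bd ha hc t).1.le
  have hω2 : ∀ t, wl a b c t ≤ 2 := fun t => (wl_bd ha hc t).2
  have htriv : ∀ k, k ≤ m → |∑ t ∈ Icc 1 k, lio t * wl a b c t| ≤ 2 * m := by
    intro k hk
    calc |∑ t ∈ Icc 1 k, lio t * wl a b c t| ≤ ∑ t ∈ Icc 1 k, |lio t * wl a b c t| := abs_sum_le_sum_abs _ _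
      _ ≤ ∑ _t ∈ Icc 1 k, (2 : ℝ) := by
          refine sum_le_sum fun t _ => ?_
          rw [abs_mul, lio_abs, one_mul, abs_of_nonneg (hω0 t)]
          exact hω2 t
      _ = k * 2 := by rw [sum_const, Nat.card_Icc, Nat.add_sub_cancel, nsmul_eq_mul]
      _ ≤ 2 * m := by
          have : (k : ℝ) ≤ m := by exact_mod_cast hk
          linarith
  rcases le_or_gt y m with hym | hym
  · have := htriv y hym
    linarith
  have hsp : ∀ (n : ℕ), m ≤ n → ∀ g' : ℕ → ℝ, ∑ t ∈ Icc 1 n, g' t = ∑ t ∈ Icc 1 m, g' t + ∑ t ∈ Ioc m n, g' t := by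
    intro n hn g'
    rw [← sum_union]
    · apply sum_congr _ (fun _ _ => rfl)
      ext t
      rw [mem_union, mem_Icc, mem_Icc, mem_Ioc]
      omega
    · rw [disjoint_left]
      intro t ht ht'
      rw [mem_Icc] at ht
      rw [mem_Ioc] at ht'
      omega
  have hab := abel_mono (fun t => wl a b c t) (fun _ => 0) lio m 0 (2 * M) (by linarith) hω0
    (fun t ht => wl_mono ha hc (by omega)) y hym (by
      intro k hk
      rw [zero_mul, zero_add]
      rcases le_or_gt k m with hkm | hkm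
      · rw [Ioc_eq_empty (by omega), sum_empty, abs_zero]
        linarith
      · have e1 := hsp k hkm.le lio
        have g1 := hM k ((Nat.pow_le_pow_left hk 2).trans hy)
        have g2 := hM m ((Nat.pow_le_pow_left hym.le 2).trans hy)
        have e2 : ∑ t ∈ Ioc m k, lio t = ∑ t ∈ Icc 1 k, lio t - ∑ t ∈ Icc 1 m, lio t := by linarith
        rw [e2]
        refine (abs_sub _ _).trans ?_
        linarith)
  rw [zero_mul, zero_add] at hab
  rw [hsp y hym.le]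
  refine (abs_add_le _ _).trans ?_
  have g3 := htriv m le_rfl
  have g4 : ∑ t ∈ Ioc m y, lio t * wl a b c t = ∑ t ∈ Ioc m y, wl a b c t * lio t := by
    apply sum_congr rfl
    intro t _
    ring
  have g5 : 2 * M * wl a b c (m + 1) ≤ 2 * M * 2 := mul_le_mul_of_nonneg_left (hω2 _) (by linarith)
  rw [g4]
  linarith

/-- a lower bound for `∑ 1 / log f` -/
lemma wl_low {a b c : ℤ} (ha : 0 < a) (hc : b ^ 2 + 2 ≤ c) {X : ℕ} (hcX : c ≤ X) (hX : 4 ≤ X)
    (hab : a + |b| + 1 ≤ X) : √(X : ℝ) / (4 * Real.log X) ≤ ∑ t ∈ Icc 1 (Nat.sqrt X), wl a b c t := by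
  have hXr : (4 : ℝ) ≤ X := by exact_mod_cast hX
  have hL : 0 < Real.log X := Real.log_pos (by linarith)
  have h1 : ∀ t ∈ Icc 1 (Nat.sqrt X), 1 / (2 * Real.log X) ≤ wl a b c t := by
    intro t ht
    rw [mem_Icc] at ht
    have h2 : fv (-a) (-b) c t ≤ (X : ℤ) ^ 2 := by
      have ht2 : (t : ℤ) ^ 2 ≤ X := by
        have h2 : t ^ 2 ≤ X := by
          calc t ^ 2 ≤ (Nat.sqrt X) ^ 2 := Nat.pow_le_pow_left ht.2 2
            _ ≤ X := Nat.sqrt_le' X
        exact_mod_cast h2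
      have ht1 : (t : ℤ) ≤ (t : ℤ) ^ 2 := by
        have h2 : t ≤ t ^ 2 := Nat.le_self_pow (by norm_num) t
        exact_mod_cast h2
      have ht0 : (0 : ℤ) ≤ t := by positivity
      have hX0z : (0 : ℤ) ≤ X := by positivity
      have h3 : a * (t : ℤ) ^ 2 ≤ a * X := mul_le_mul_of_nonneg_left ht2 ha.le
      have h4 : b * (t : ℤ) ≤ |b| * X := by
        calc b * (t : ℤ) ≤ |b| * (t : ℤ) := mul_le_mul_of_nonneg_right (le_abs_self b) ht0
          _ ≤ |b| * X := mul_le_mul_of_nonneg_left (ht1.trans ht2) (abs_nonneg b)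
      have h5 : (a + |b| + 1) * (X : ℤ) ≤ X * X := mul_le_mul_of_nonneg_right hab hX0z
      unfold fv
      nlinarith
    have h3 : ((fv (-a) (-b) c t : ℤ) : ℝ) ≤ (X : ℝ) ^ 2 := by exact_mod_cast h2
    have h4 : (2 : ℝ) ≤ ((fv (-a) (-b) c t : ℤ) : ℝ) := by exact_mod_cast fv_two ha hc t
    have h5 := Real.log_le_log (by linarith) h3
    rw [Real.log_pow] at h5
    push_cast at h5
    unfold wl
    exact one_div_le_one_div_of_le (Real.log_pos (by linarith)) h5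
  have h2 : √(X : ℝ) / 2 ≤ (Nat.sqrt X : ℝ) := by
    have h3 : √(X : ℝ) < (Nat.sqrt X : ℝ) + 1 := by
      rw [Real.sqrt_lt' (by positivity)]
      exact_mod_cast Nat.lt_succ_sqrt' X
    have h4 : 2 ≤ √(X : ℝ) := by
      rw [show (2 : ℝ) = √4 by rw [show (4 : ℝ) = 2 ^ 2 by norm_num, Real.sqrt_sq (by norm_num)]]
      exact Real.sqrt_le_sqrt hXr
    linarith
  calc √(X : ℝ) / (4 * Real.log X) = (√(X : ℝ) / 2) * (1 / (2 * Real.log X)) := by
        field_simp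
        try ring
    _ ≤ (Nat.sqrt X : ℝ) * (1 / (2 * Real.log X)) := mul_le_mul_of_nonneg_right h2 (by positivity)
    _ = ∑ _t ∈ Icc 1 (Nat.sqrt X), 1 / (2 * Real.log X) := by
        rw [sum_const, Nat.card_Icc, Nat.add_sub_cancel, nsmul_eq_mul]
    _ ≤ _ := sum_le_sum h1

/-- the conclusion for one constant term -/
def GoodL (a b : ℤ) (ε : ℝ) (X : ℕ) (c : ℤ) : Prop :=
  ∃ s : ℝ, Tendsto (fun z : ℕ => Sz (-a) (-b) c z) atTop (𝓝 s) ∧ 0 < s ∧
  ∀ e : ℝ, (e = 1 ∨ e = -1) → ∀ y : ℕ, y ^ 2 ≤ X →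
    |(((Icc 1 y).filter (fun t : ℕ => (fv (-a) (-b) c t).toNat.Prime ∧ lio t = e)).card : ℝ) -
      s / 2 * ∑ t ∈ Icc 1 y, wl a b c t| ≤
      ε * (s / 2 * ∑ t ∈ Icc 1 (Nat.sqrt X), wl a b c t)

open Classical in
theorem fin_li (a b : ℤ) (ha : 0 < a) (A : ℕ) (ε : ℝ) (hε : 0 < ε) :
    ∃ X0 : ℕ, ∀ X : ℕ, X0 ≤ X →
    (((Icc 1 (X : ℤ)).filter (fun c : ℤ => (∀ p : ℕ, p.Prime → ∃ m : ℕ, ¬ (p : ℤ) ∣ fv (-a) (-b) c m) ∧
      ¬ GoodL a b ε X c)).card : ℝ) ≤ X / Real.log X ^ A := by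
  obtain ⟨B, X1, h1⟩ := asm a b ha (A + 2) 5 (ε / 16) (by positivity)
  obtain ⟨X2, h2⟩ := equi_li B
  obtain ⟨X3, h3⟩ := lio_ap 2
  have hev : ∀ᶠ X : ℕ in atTop, (1000 + b ^ 2 + 1000 / ε + 2 * b.natAbs: ℝ) ≤ Real.log X ∧
      Real.log X ^ (A + 8) ≤ (X : ℝ) ^ (1 / 2 : ℝ) ∧ X1 + X2 + X3 + (a + |b| + 1).toNat + 4 ≤ X := by
    filter_upwards [evt_log_ge (1000 + b ^ 2 + 1000 / ε + 2 * b.natAbs), evt_log_pow (A + 8) (1 / 2) (by norm_num),
      eventually_ge_atTop (X1 + X2 + X3 + (a + |b| + 1).toNat + 4)] with X h1 h2 h3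
    exact ⟨h1, h2, h3⟩
  obtain ⟨X0, hX0⟩ := eventually_atTop.1 hev
  refine ⟨X0, fun X hX => ?_⟩
  obtain ⟨hL, hLA, hXN⟩ := hX0 X hX
  rw [← Real.sqrt_eq_rpow] at hLA
  have hbr : (0 : ℝ) ≤ (b : ℝ) ^ 2 := sq_nonneg _
  have hbn : (0 : ℝ) ≤ 2 * (b.natAbs : ℝ) := by positivity
  have hεi : 0 < 1000 / ε := by positivity
  have hLe : 1000 / ε ≤ Real.log X := by linarith
  have hL1000 : 1000 ≤ Real.log X := by linarith
  have hL0 : 0 < Real.log X := by linarith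
  have hL1 : 1 ≤ Real.log X := by linarith
  have hLp0 : ∀ n : ℕ, 0 < Real.log X ^ n := fun n => by positivity
  have hX1 : 1 ≤ X := by omega
  have hXr : (1 : ℝ) ≤ X := by exact_mod_cast hX1
  have hX0r : (0 : ℝ) < X := by linarith
  have hS0 : 0 < √(X : ℝ) := Real.sqrt_pos.2 hX0r
  have habX : a + |b| + 1 ≤ X := by
    have : ((a + |b| + 1).toNat : ℤ) = a + |b| + 1 := Int.toNat_of_nonneg (by positivity)
    omega
  have hεL : 1000 ≤ ε * Real.log X := by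
    rw [div_le_iff₀ hε] at hLe
    linarith
  have g1 := h1 X (by omega) (wli 1) (wli_bd (Or.inl rfl)) (h2 X (by omega) 1 (Or.inl rfl))
  have g2 := h1 X (by omega) (wli (-1)) (wli_bd (Or.inr rfl)) (h2 X (by omega) (-1) (Or.inr rfl))
  have hM : ∀ k : ℕ, k ^ 2 ≤ X → |∑ t ∈ Icc 1 k, lio t| ≤ √(X : ℝ) / Real.log X ^ 2 := by
    intro k hk
    have g3 := h3 X (by omega) 1 le_rfl 0 k hk
    have g4 : (Icc 1 k).filter (fun t => t ≡ 0 [MOD 1]) = Icc 1 k := by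
      apply filter_true_of_mem
      intro t _
      exact Nat.modEq_one
    rwa [g4] at g3
  have hsub : (Icc 1 (X : ℤ)).filter (fun c : ℤ => (∀ p : ℕ, p.Prime → ∃ m : ℕ, ¬ (p : ℤ) ∣ fv (-a) (-b) c m) ∧
      ¬ GoodL a b ε X c) ⊆ (Icc 1 (b ^ 2 + 1)) ∪
      (Icc 1 (X : ℤ)).filter (fun c : ℤ => ¬ GoodW a b (ε / 16) 5 X (wli 1) c) ∪
      (Icc 1 (X : ℤ)).filter (fun c : ℤ => ¬ GoodW a b (ε / 16) 5 X (wli (-1)) c) := by
    intro c hc
    rw [mem_filter, mem_Icc] at hc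
    obtain ⟨⟨hc1, hcX⟩, hfix, hng⟩ := hc
    rw [mem_union, mem_union, mem_filter, mem_filter, mem_Icc, mem_Icc]
    by_contra hcon
    push Not at hcon
    obtain ⟨⟨q1, q2⟩, q3⟩ := hcon
    have hcb : b ^ 2 + 2 ≤ c := by
      have := q1 hc1
      omega
    have w1 := q2 ⟨hc1, hcX⟩
    have w2 := q3 ⟨hc1, hcX⟩
    apply hng
    obtain ⟨s, hs1, hs2, hs3, hs4⟩ := w1
    obtain ⟨s', hs1', -, -, hs4'⟩ := w2
    have hss : s' = s := tendsto_nhds_unique hs1' hs1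
    rw [hss] at hs4'
    have hslow := hs3 hfix
    have hs0 : 0 < s := lt_of_lt_of_le (by positivity) hslow
    refine ⟨s, hs1, hs0, fun e he y hy => ?_⟩
    -- the inequality for this e
    have hW : |∑ t ∈ Icc 1 y, wli e t * ip (fv (-a) (-b) c t) - s * ∑ t ∈ Icc 1 y, wli e t * wl a b c t| ≤
      ε / 16 * (s * ∑ t ∈ Icc 1 y, wli e t * wl a b c t) + √(X : ℝ) / Real.log X ^ 5 := by
      rcases he with rfl | rfl
      · exact hs4 y hy
      · exact hs4' y hy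
    have e1 : (((Icc 1 y).filter (fun t : ℕ => (fv (-a) (-b) c t).toNat.Prime ∧ lio t = e)).card : ℝ) =
        ∑ t ∈ Icc 1 y, wli e t * ip (fv (-a) (-b) c t) := by
      rw [card_eq_sum_ones, sum_filter]
      push_cast
      apply sum_congr rfl
      intro t _
      rw [wli_eq he]
      unfold ip
      by_cases k1 : (fv (-a) (-b) c t).toNat.Prime <;> by_cases k2 : lio t = e <;> simp [k1, k2]
    rw [e1]
    obtain ⟨Ω, hΩ⟩ : ∃ Ω, Ω = ∑ t ∈ Icc 1 (Nat.sqrt X), wl a b c t := ⟨_, rfl⟩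
    obtain ⟨Y, hYd⟩ : ∃ Y, Y = ∑ t ∈ Icc 1 y, wl a b c t := ⟨_, rfl⟩
    obtain ⟨T, hT⟩ : ∃ T, T = ∑ t ∈ Icc 1 y, wli e t * wl a b c t := ⟨_, rfl⟩
    obtain ⟨Λ, hΛ⟩ : ∃ Λ, Λ = ∑ t ∈ Icc 1 y, lio t * wl a b c t := ⟨_, rfl⟩
    obtain ⟨P, hP⟩ : ∃ P, P = ∑ t ∈ Icc 1 y, wli e t * ip (fv (-a) (-b) c t) := ⟨_, rfl⟩
    have hTY : T = Y / 2 + e * Λ / 2 := by
      rw [hT, hYd, hΛ, mul_sum, sum_div, sum_div, ← sum_add_distrib]
      apply sum_congr rfl
      intro t _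
      unfold wli
      ring
    have hYΩ : Y ≤ Ω := by
      rw [hYd, hΩ]
      apply sum_le_sum_of_subset_of_nonneg
      · apply Icc_subset_Icc le_rfl
        exact Nat.le_sqrt'.2 hy
      · intro t _ _
        exact (wl_bd ha hcb t).1.le
    have hTY2 : T ≤ Y := by
      rw [hT, hYd]
      apply sum_le_sum
      intro t _
      have := mul_le_mul_of_nonneg_right (wli_bd he t).2 (wl_bd ha hcb t).1.le
      linarith
    have hΩlow := wl_low ha hcb hcX (by omega) habX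
    have hΛb := lio_wl ha hcb hy (M := √(X : ℝ) / Real.log X ^ 2) (by positivity) hM
    rw [← hT, ← hP] at hW
    rw [← hP, ← hYd, ← hΩ]
    rw [← hΩ] at hΩlow
    rw [← hΛ] at hΛb
    have he1 : |e| = 1 := by rcases he with rfl | rfl <;> simp
    have e2 : P - s / 2 * Y = (P - s * T) + s / 2 * (e * Λ) := by rw [hTY]; ring
    rw [e2]
    refine (abs_add_le _ _).trans ?_
    rw [abs_mul (s / 2), abs_mul e, he1, one_mul, abs_of_pos (show 0 < s / 2 by linarith)]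
    have hSL : 0 < √(X : ℝ) / Real.log X := by positivity
    have k0 : √(X : ℝ) / (4 * Real.log X) = √(X : ℝ) / Real.log X / 4 := by
      field_simp
    rw [k0] at hΩlow
    -- bounds
    have k1 : √(X : ℝ) / Real.log X ^ 5 ≤ ε / 16 * (s * Ω) := by
      have k2 : 1 / Real.log X ^ 3 * (√(X : ℝ) / Real.log X / 4) ≤ s * Ω :=
        mul_le_mul hslow hΩlow (by positivity) hs0.le
      have k3 : √(X : ℝ) / Real.log X ^ 5 ≤ ε / 16 * (1 / Real.log X ^ 3 * (√(X : ℝ) / Real.log X / 4)) := by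
        have k4 : ε / 16 * (1 / Real.log X ^ 3 * (√(X : ℝ) / Real.log X / 4)) =
            √(X : ℝ) / Real.log X ^ 5 * (ε * Real.log X / 64) := by
          field_simp
          try ring
        rw [k4]
        have k5 : 1 ≤ ε * Real.log X / 64 := by linarith
        have k6 : 0 < √(X : ℝ) / Real.log X ^ 5 := by positivity
        nlinarith
      have k7 := mul_le_mul_of_nonneg_left k2 (show 0 ≤ ε / 16 by positivity)
      linarith
    have k8 : |Λ| ≤ ε / 4 * Ω := by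
      have hb1 : 2 * (b.natAbs : ℝ) ≤ √(X : ℝ) / Real.log X ^ 2 := by
        rw [le_div_iff₀ (hLp0 2)]
        calc 2 * (b.natAbs : ℝ) * Real.log X ^ 2 ≤ Real.log X * Real.log X ^ 2 := by gcongr; linarith
          _ = Real.log X ^ 3 := by ring
          _ ≤ Real.log X ^ (A + 8) := pow_le_pow_right₀ hL1 (by omega)
          _ ≤ √(X : ℝ) := hLA
      have k9 : 5 * (√(X : ℝ) / Real.log X ^ 2) ≤ ε / 4 * (√(X : ℝ) / Real.log X / 4) := by
        have k4 : ε / 4 * (√(X : ℝ) / Real.log X / 4) = √(X : ℝ) / Real.log X ^ 2 * (ε * Real.log X / 16) := by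
          field_simp
          try ring
        rw [k4]
        have k5 : 5 ≤ ε * Real.log X / 16 := by linarith
        have k6 : 0 < √(X : ℝ) / Real.log X ^ 2 := by positivity
        nlinarith
      have k7 := mul_le_mul_of_nonneg_left hΩlow (show 0 ≤ ε / 4 by positivity)
      linarith
    have k10 : s / 2 * |Λ| ≤ s / 2 * (ε / 4 * Ω) := mul_le_mul_of_nonneg_left k8 (by linarith)
    have k11 : ε / 16 * (s * T) ≤ ε / 16 * (s * Ω) := by gcongr; linarith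
    have k12 : 0 ≤ ε * (s * Ω) := by
      have : 0 ≤ Ω := le_trans (by positivity) hΩlow
      positivity
    have k13 : s / 2 * (ε / 4 * Ω) = ε * (s * Ω) / 8 := by ring
    have k14 : ε / 16 * (s * Ω) = ε * (s * Ω) / 16 := by ring
    have k15 : ε * (s / 2 * Ω) = ε * (s * Ω) / 2 := by ring
    linarith
  have hcard := card_le_card hsub
  have k2 := card_union_le ((Icc 1 (b ^ 2 + 1)) ∪
      (Icc 1 (X : ℤ)).filter (fun c : ℤ => ¬ GoodW a b (ε / 16) 5 X (wli 1) c))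
      ((Icc 1 (X : ℤ)).filter (fun c : ℤ => ¬ GoodW a b (ε / 16) 5 X (wli (-1)) c))
  have k3 := card_union_le (Icc 1 (b ^ 2 + 1))
      ((Icc 1 (X : ℤ)).filter (fun c : ℤ => ¬ GoodW a b (ε / 16) 5 X (wli 1) c))
  have k4 : ((Icc 1 (b ^ 2 + 1)).card : ℝ) = (b : ℝ) ^ 2 + 1 := by
    rw [Int.card_Icc]
    have : ((b ^ 2 + 1 + 1 - 1 : ℤ).toNat : ℤ) = b ^ 2 + 1 := by
      rw [Int.toNat_of_nonneg (by nlinarith [sq_nonneg b])]
      ring
    exact_mod_cast this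
  have k6 : (((Icc 1 (X : ℤ)).filter (fun c : ℤ => (∀ p : ℕ, p.Prime → ∃ m : ℕ, ¬ (p : ℤ) ∣ fv (-a) (-b) c m) ∧
      ¬ GoodL a b ε X c)).card : ℝ) ≤ ((Icc 1 (b ^ 2 + 1)).card : ℝ) +
      ((Icc 1 (X : ℤ)).filter (fun c : ℤ => ¬ GoodW a b (ε / 16) 5 X (wli 1) c)).card +
      ((Icc 1 (X : ℤ)).filter (fun c : ℤ => ¬ GoodW a b (ε / 16) 5 X (wli (-1)) c)).card := by
    have kk := hcard.trans (k2.trans (Nat.add_le_add_right k3 _))
    exact_mod_cast kk
  refine k6.trans ?_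
  rw [k4]
  have hLA1 : Real.log X ^ (A + 4) ≤ X := by
    have h30 : √(X : ℝ) ≤ X := by
      have h31 : 1 ≤ √(X : ℝ) := Real.one_le_sqrt.2 hXr
      have hSS : √(X : ℝ) * √(X : ℝ) = X := Real.mul_self_sqrt hX0r.le
      nlinarith
    have h32 : Real.log X ^ (A + 4) ≤ Real.log X ^ (A + 8) := pow_le_pow_right₀ hL1 (by omega)
    linarith
  have k7 : (b : ℝ) ^ 2 + 1 ≤ X / Real.log X ^ (A + 2) := by
    rw [le_div_iff₀ (hLp0 _)]
    calc ((b : ℝ) ^ 2 + 1) * Real.log X ^ (A + 2) ≤ Real.log X * Real.log X ^ (A + 2) := by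
          gcongr; linarith
      _ = Real.log X ^ (A + 3) := by ring
      _ ≤ Real.log X ^ (A + 4) := pow_le_pow_right₀ hL1 (by omega)
      _ ≤ X := hLA1
  have k8 : X / Real.log X ^ (A + 2) ≤ X / Real.log X ^ A / 3 := by
    rw [div_div, div_le_div_iff₀ (by positivity) (by positivity), pow_add]
    have h22 : 0 < X * Real.log X ^ A := by positivity
    have h23 : 3 ≤ Real.log X ^ 2 := by nlinarith
    nlinarith
  linarith

end Pool.Agent.N740.PA
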