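import Pool.Agent.H373R2.T7.SupLiou
import Pool.Agent.H373R2.T7.Cnt
import Pool.Agent.N740.PA.Asm

/-!
The arguments with an even (odd) number of prime factors are equidistributed in residue classes.
-/

set_option autoImplicit false

namespace Pool.Agent.N740.PA

open Finset Filter Topology
open Pool.Agent.H807R2.Dav (ee norm_ee ee_add ee_int ee_pow ee_zero)
open Pool.Agent.H373R2.T7 (SupSmall orth liR sup_liou count_class)

/-- the Liouville function -/
noncomputable def lio (t : ℕ) : ℝ := (-1 : ℝ) ^ (ArithmeticFunction.cardFactors t)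

lemma lio_cases (t : ℕ) : lio t = 1 ∨ lio t = -1 := neg_one_pow_eq_or ℝ _

lemma lio_abs (t : ℕ) : |lio t| = 1 := by
  rcases lio_cases t with h | h <;> rw [h] <;> simp

/-- sums over residue classes are bounded by exponential sums -/
lemma ap_le (y d r : ℕ) (hd : 1 ≤ d) (M : ℝ) (h : ∀ α : ℝ, ‖∑ n ∈ Icc 1 y, liR n * ee ((n : ℝ) * α)‖ ≤ M) :
    |∑ t ∈ (Icc 1 y).filter (fun t => t ≡ r [MOD d]), lio t| ≤ M := by
  have hd0 : (0 : ℝ) < d := by exact_mod_cast hd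
  have hli : ∀ n, ((lio n : ℝ) : ℂ) = liR n := by
    intro n
    unfold lio liR
    push_cast
    rfl
  have hind : ∀ n : ℕ, (d : ℂ) * (((if n ≡ r [MOD d] then lio n else 0 : ℝ)) : ℂ) =
      liR n * ∑ t ∈ range d, ee ((t : ℝ) * ((((n : ℤ) - r : ℤ) : ℝ) / d)) := by
    intro n
    rw [orth d hd]
    by_cases h : n ≡ r [MOD d]
    · rw [if_pos h, if_pos, hli]
      · ring
      · exact (Nat.modEq_iff_dvd.1 h.symm)
    · rw [if_neg h, if_neg]
      · simp
      · intro hdv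
        exact h (Nat.modEq_iff_dvd.2 hdv).symm
  have hsum : (d : ℂ) * ((∑ t ∈ (Icc 1 y).filter (fun t => t ≡ r [MOD d]), lio t : ℝ) : ℂ) =
      ∑ t ∈ range d, ee (-((t : ℝ) * ((r : ℝ) / d))) * ∑ n ∈ Icc 1 y, liR n * ee ((n : ℝ) * ((t : ℝ) / d)) := by
    rw [sum_filter, Complex.ofReal_sum, mul_sum]
    have e1 : ∀ n ∈ Icc 1 y, (d : ℂ) * (((if n ≡ r [MOD d] then lio n else 0 : ℝ)) : ℂ) =
        ∑ t ∈ range d, ee (-((t : ℝ) * ((r : ℝ) / d))) * (liR n * ee ((n : ℝ) * ((t : ℝ) / d))) := by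
      intro n _
      rw [hind n, mul_sum]
      apply sum_congr rfl
      intro t _
      have e2 : ee ((t : ℝ) * ((((n : ℤ) - r : ℤ) : ℝ) / d)) = ee (-((t : ℝ) * ((r : ℝ) / d))) * ee ((n : ℝ) * ((t : ℝ) / d)) := by
        rw [← ee_add]
        congr 1
        push_cast
        ring
      rw [e2]
      ring
    rw [sum_congr rfl e1, sum_comm]
    apply sum_congr rfl
    intro t _
    rw [mul_sum]
  have hb : (d : ℝ) * |∑ t ∈ (Icc 1 y).filter (fun t => t ≡ r [MOD d]), lio t| ≤ d * M := by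
    have e1 : (d : ℝ) * |∑ t ∈ (Icc 1 y).filter (fun t => t ≡ r [MOD d]), lio t| =
        ‖(d : ℂ) * ((∑ t ∈ (Icc 1 y).filter (fun t => t ≡ r [MOD d]), lio t : ℝ) : ℂ)‖ := by
      rw [norm_mul, Complex.norm_natCast, Complex.norm_real, Real.norm_eq_abs]
    rw [e1, hsum]
    refine (norm_sum_le _ _).trans ?_
    have e2 : ∀ t ∈ range d, ‖ee (-((t : ℝ) * ((r : ℝ) / d))) * ∑ n ∈ Icc 1 y, liR n * ee ((n : ℝ) * ((t : ℝ) / d))‖ ≤ M := by
      intro t _
      rw [norm_mul, norm_ee, one_mul]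
      exact h _
    refine (sum_le_sum e2).trans (le_of_eq ?_)
    rw [sum_const, card_range, nsmul_eq_mul]
  exact le_of_mul_le_mul_left hb hd0

/-- the Liouville function in residue classes -/
lemma lio_ap (U : ℕ) : ∃ X0 : ℕ, ∀ X : ℕ, X0 ≤ X → ∀ d : ℕ, 1 ≤ d → ∀ r y : ℕ, y ^ 2 ≤ X →
    |∑ t ∈ (Icc 1 y).filter (fun t => t ≡ r [MOD d]), lio t| ≤ √(X : ℝ) / Real.log X ^ U := by
  obtain ⟨N1, h1⟩ := sup_liou (U + 1)
  have hev : ∀ᶠ X : ℕ in atTop, (4 ^ (U + 1) + 100 : ℝ) ≤ Real.log X ∧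
      Real.log X ^ U ≤ (X : ℝ) ^ (1 / 4 : ℝ) ∧ N1 ^ 4 + 2 ≤ X := by
    filter_upwards [evt_log_ge (4 ^ (U + 1) + 100), evt_log_pow U (1 / 4) (by norm_num),
      eventually_ge_atTop (N1 ^ 4 + 2)] with X h1 h2 h3
    exact ⟨h1, h2, h3⟩
  obtain ⟨X0, hX0⟩ := eventually_atTop.1 hev
  refine ⟨X0, fun X hX d hd r y hy => ?_⟩
  obtain ⟨hL, hLU, hXN⟩ := hX0 X hX
  have h4 : (0 : ℝ) < 4 ^ (U + 1) := by positivity
  have hL0 : 0 < Real.log X := by linarith
  have hLp0 : ∀ n : ℕ, 0 < Real.log X ^ n := fun n => by positivity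
  have hX1 : 1 ≤ X := by omega
  have hXr : (1 : ℝ) ≤ X := by exact_mod_cast hX1
  have hX0r : (0 : ℝ) < X := by linarith
  obtain ⟨Q, hQ⟩ : ∃ Q : ℝ, Q = (X : ℝ) ^ (1 / 4 : ℝ) := ⟨_, rfl⟩
  rw [← hQ] at hLU
  have hQ0 : 0 < Q := by rw [hQ]; positivity
  have hQ2 : √(X : ℝ) = Q * Q := by
    rw [hQ, Real.sqrt_eq_rpow, ← Real.rpow_add hX0r]
    norm_num
  have hyS : (y : ℝ) ≤ √(X : ℝ) := by
    apply Real.le_sqrt_of_sq_le
    exact_mod_cast hy
  rcases le_or_gt (y : ℝ) Q with hyQ | hyQ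
  · -- trivial bound
    calc |∑ t ∈ (Icc 1 y).filter (fun t => t ≡ r [MOD d]), lio t| ≤
          ∑ t ∈ (Icc 1 y).filter (fun t => t ≡ r [MOD d]), |lio t| := abs_sum_le_sum_abs _ _
      _ ≤ ∑ t ∈ Icc 1 y, |lio t| := sum_le_sum_of_subset_of_nonneg (filter_subset _ _) (fun _ _ _ => abs_nonneg _)
      _ = y := by
          simp only [lio_abs]
          rw [sum_const, Nat.card_Icc, Nat.add_sub_cancel, nsmul_eq_mul, mul_one]
      _ ≤ Q := hyQ
      _ ≤ √(X : ℝ) / Real.log X ^ U := by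
          rw [le_div_iff₀ (hLp0 U), hQ2]
          exact mul_le_mul_of_nonneg_left hLU hQ0.le
  · have hyN : N1 ≤ y := by
      have h5 : (N1 : ℝ) ≤ Q := by
        rw [hQ]
        have h6 : ((N1 : ℝ) ^ 4) ^ (1 / 4 : ℝ) = N1 := by
          rw [← Real.rpow_natCast, ← Real.rpow_mul (Nat.cast_nonneg _)]
          norm_num
        rw [← h6]
        apply Real.rpow_le_rpow (by positivity) _ (by norm_num)
        exact_mod_cast (by omega : N1 ^ 4 ≤ X)
      have : (N1 : ℝ) ≤ y := by linarith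
      exact_mod_cast this
    have hly : Real.log X / 4 ≤ Real.log y := by
      have h7 := Real.log_le_log hQ0 hyQ.le
      rw [hQ, Real.log_rpow hX0r] at h7
      linarith
    have h8 := ap_le y d r hd _ (h1 y hyN)
    refine h8.trans ?_
    have hly0 : 0 < Real.log X / 4 := by linarith
    calc (y : ℝ) / Real.log y ^ (U + 1) ≤ √(X : ℝ) / (Real.log X / 4) ^ (U + 1) := by
          gcongr
      _ = √(X : ℝ) / Real.log X ^ U * (4 ^ (U + 1) / Real.log X) := by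
          rw [div_pow, pow_succ (Real.log X)]
          field_simp
      _ ≤ √(X : ℝ) / Real.log X ^ U * 1 := by
          apply mul_le_mul_of_nonneg_left _ (by positivity)
          rw [div_le_one hL0]
          linarith
      _ = _ := mul_one _

/-- the weights: the indicator function of `λ(t) = e` -/
noncomputable def wli (e : ℝ) (t : ℕ) : ℝ := (1 + e * lio t) / 2

lemma wli_bd {e : ℝ} (he : e = 1 ∨ e = -1) (t : ℕ) : 0 ≤ wli e t ∧ wli e t ≤ 1 := by
  unfold wli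
  rcases he with rfl | rfl <;> rcases lio_cases t with h | h <;> rw [h] <;> norm_num

lemma wli_eq {e : ℝ} (he : e = 1 ∨ e = -1) (t : ℕ) : wli e t = if lio t = e then 1 else 0 := by
  unfold wli
  rcases he with rfl | rfl <;> rcases lio_cases t with h | h <;> rw [h] <;> norm_num

/-- the weights are equidistributed, and half of the arguments -/
lemma equi_li (B : ℕ) : ∃ X0 : ℕ, ∀ X : ℕ, X0 ≤ X → ∀ e : ℝ, (e = 1 ∨ e = -1) → Equi X B (wli e) := by
  obtain ⟨X1, h1⟩ := lio_ap (B + 1)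
  have hev : ∀ᶠ X : ℕ in atTop, (100 : ℝ) ≤ Real.log X ∧
      Real.log X ^ B ≤ (X : ℝ) ^ (1 / 2 : ℝ) ∧ X1 + 2 ≤ X := by
    filter_upwards [evt_log_ge 100, evt_log_pow B (1 / 2) (by norm_num),
      eventually_ge_atTop (X1 + 2)] with X h1 h2 h3
    exact ⟨h1, h2, h3⟩
  obtain ⟨X0, hX0⟩ := eventually_atTop.1 hev
  refine ⟨X0, fun X hX e he d hd _ r y hy => ?_⟩
  obtain ⟨hL, hLB, hXN⟩ := hX0 X hX
  rw [← Real.sqrt_eq_rpow] at hLB
  have hL0 : 0 < Real.log X := by linarith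
  have hLp0 : ∀ n : ℕ, 0 < Real.log X ^ n := fun n => by positivity
  have g1 := h1 X (by omega) d hd r y hy
  have g2 := h1 X (by omega) 1 le_rfl 0 y hy
  have g3 : (Icc 1 y).filter (fun t => t ≡ 0 [MOD 1]) = Icc 1 y := by
    apply filter_true_of_mem
    intro t _
    exact Nat.modEq_one
  rw [g3] at g2
  have g4 := count_class y d r hd
  have hd0 : (0 : ℝ) < d := by exact_mod_cast hd
  have hd1 : (1 : ℝ) ≤ d := by exact_mod_cast hd
  have he1 : |e| = 1 := by rcases he with rfl | rfl <;> simp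
  have e1 : ∑ t ∈ (Icc 1 y).filter (fun t => t ≡ r [MOD d]), wli e t - (∑ t ∈ Icc 1 y, wli e t) / (d : ℝ) =
      ((((Icc 1 y).filter (fun n => n ≡ r [MOD d])).card : ℝ) - y / d) / 2 +
      (e * ∑ t ∈ (Icc 1 y).filter (fun t => t ≡ r [MOD d]), lio t - e * ((∑ t ∈ Icc 1 y, lio t) / d)) / 2 := by
    have e2 : ∀ s : Finset ℕ, ∑ t ∈ s, wli e t = ((s.card : ℝ) + e * ∑ t ∈ s, lio t) / 2 := by
      intro s
      unfold wli
      rw [← sum_div, sum_add_distrib, sum_const, nsmul_eq_mul, mul_one, ← mul_sum]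
    rw [e2, e2, Nat.card_Icc, Nat.add_sub_cancel]
    ring
  rw [e1]
  refine (abs_add_le _ _).trans ?_
  have k1 : |((((Icc 1 y).filter (fun n => n ≡ r [MOD d])).card : ℝ) - y / d) / 2| ≤ 1 / 2 := by
    rw [abs_div, abs_two]
    linarith
  have k2 : |(∑ t ∈ Icc 1 y, lio t) / (d : ℝ)| ≤ √(X : ℝ) / Real.log X ^ (B + 1) := by
    rw [abs_div, abs_of_pos hd0]
    refine le_trans (div_le_self (abs_nonneg _) hd1) g2
  have k3 : |(e * ∑ t ∈ (Icc 1 y).filter (fun t => t ≡ r [MOD d]), lio t - e * ((∑ t ∈ Icc 1 y, lio t) / d)) / 2| ≤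
      √(X : ℝ) / Real.log X ^ (B + 1) := by
    rw [abs_div, abs_two, div_le_iff₀ two_pos]
    refine (abs_sub _ _).trans ?_
    rw [abs_mul, abs_mul, he1, one_mul, one_mul]
    linarith
  have k4 : √(X : ℝ) / Real.log X ^ (B + 1) ≤ √(X : ℝ) / Real.log X ^ B / 2 := by
    have hS0 : 0 ≤ √(X : ℝ) := Real.sqrt_nonneg _
    rw [div_div, div_le_div_iff₀ (by positivity) (by positivity), pow_succ]
    have : 0 ≤ √(X : ℝ) * Real.log X ^ B := by positivity
    nlinarith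
  have k5 : 1 / 2 ≤ √(X : ℝ) / Real.log X ^ B / 2 := by
    have : 1 ≤ √(X : ℝ) / Real.log X ^ B := by
      rw [le_div_iff₀ (hLp0 B)]
      linarith
    linarith
  linarith

end Pool.Agent.N740.PA
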