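import Pool.Agent.N740.PA.Second
import Pool.Agent.TH892.SW.S5

/-!
For all but few constant terms, the primes minus their sieve model have small weighted sums over the
values of a quadratic polynomial, for all initial segments of the arguments.
-/

set_option autoImplicit false

namespace Pool.Agent.N740.PA

open Finset Filter
open Pool.Agent.H373R2.T7 (pz Vz lamz)
open Pool.Agent.W110.HV (ES)
open Pool.Agent.TH892.SW (ff ffn wt sup_ff sq_ff)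

lemma evt_log_pow (k : ℕ) (s : ℝ) (hs : 0 < s) : ∀ᶠ x : ℕ in atTop,
    Real.log x ^ k ≤ (x : ℝ) ^ s := by
  have h := (isLittleO_log_rpow_rpow_atTop (k : ℝ) hs).bound (show (0:ℝ) < 1 by norm_num)
  have h2 := tendsto_natCast_atTop_atTop (R := ℝ) |>.eventually h
  filter_upwards [h2, eventually_ge_atTop 1] with x hx hx1
  have hx1' : (1:ℝ) ≤ x := by exact_mod_cast hx1
  have hl : 0 ≤ Real.log x := Real.log_nonneg hx1'
  rw [Real.rpow_natCast, Real.norm_of_nonneg (by positivity), Real.norm_of_nonneg (by positivity),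
    one_mul] at hx
  exact hx

lemma evt_log_ge (M : ℝ) : ∀ᶠ x : ℕ in atTop, M ≤ Real.log x :=
  (Real.tendsto_log_atTop.comp tendsto_natCast_atTop_atTop).eventually_ge_atTop M

/-- one weight function -/
theorem one_w (a b : ℤ) (ha : 0 < a) (A C : ℕ) : ∃ E1 : ℕ, ∀ E : ℕ, E1 ≤ E → ∃ X0 : ℕ, ∀ X : ℕ, X0 ≤ X →
    (∀ v : ℤ, |ff ⌊Real.log X ^ E⌋₊ v| ≤ 6 * Real.log X) ∧
    ∀ w : ℕ → ℝ, (∀ t, |w t| ≤ 1) →
    (((Icc 1 (X : ℤ)).filter (fun c : ℤ => √(X : ℝ) / (2 * Real.log X ^ C) <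
      |∑ t ∈ Icc 1 (Nat.sqrt X), w t * ff ⌊Real.log X ^ E⌋₊ (g a b t + c)|)).card : ℝ) ≤ X / Real.log X ^ A := by
  classical
  obtain ⟨A3, hA3⟩ : ∃ A3, A3 = 2 * C + 8 + A := ⟨_, rfl⟩
  obtain ⟨B0, hB0⟩ := sup_ff A3
  refine ⟨B0 + 2, fun E hE => ?_⟩
  obtain ⟨N0, hN0⟩ := hB0 E
  obtain ⟨N1, hN1⟩ := sq_ff E
  obtain ⟨K0, hK0⟩ : ∃ K0 : ℕ, K0 = (a + |b| + 1).toNat := ⟨_, rfl⟩
  have hK0z : (K0 : ℤ) = a + |b| + 1 := by
    rw [hK0]
    exact Int.toNat_of_nonneg (by positivity)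
  have hK01 : 1 ≤ K0 := by
    have := abs_nonneg b
    omega
  have hev : ∀ᶠ X : ℕ in atTop, (2 ^ (B0 + 1) + 100 + 72 * K0 + K0 ^ 2 : ℝ) ≤ Real.log X ∧
      Real.log X ^ (A3 + 1) ≤ (X : ℝ) ^ (1 / 2 : ℝ) ∧ N0 + N1 + K0 + 2 ≤ X := by
    filter_upwards [evt_log_ge (2 ^ (B0 + 1) + 100 + 72 * K0 + K0 ^ 2), evt_log_pow (A3 + 1) (1 / 2) (by norm_num),
      eventually_ge_atTop (N0 + N1 + K0 + 2)] with X h1 h2 h3
    exact ⟨h1, h2, h3⟩
  obtain ⟨X0, hX0⟩ := eventually_atTop.1 hev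
  refine ⟨X0, fun X hX => ?_⟩
  obtain ⟨hL, hLC, hXN⟩ := hX0 X hX
  rw [← Real.sqrt_eq_rpow] at hLC
  obtain ⟨L, hLd⟩ : ∃ L, L = Real.log X := ⟨_, rfl⟩
  rw [← hLd] at hL hLC ⊢
  obtain ⟨z, hz⟩ : ∃ z, z = ⌊L ^ E⌋₊ := ⟨_, rfl⟩
  rw [← hz]
  have hK0r : (1 : ℝ) ≤ K0 := by exact_mod_cast hK01
  have h2B : (0 : ℝ) < 2 ^ (B0 + 1) := by positivity
  have hK2 : (0 : ℝ) ≤ (K0 : ℝ) ^ 2 := by positivity
  have hL100 : 100 ≤ L := by linarith
  have hLB : (2 : ℝ) ^ (B0 + 1) ≤ L := by linarith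
  have hLK : 72 * (K0 : ℝ) ≤ L := by linarith
  have hLK2 : (K0 : ℝ) ^ 2 ≤ L := by linarith
  have hL0 : 0 < L := by linarith
  have hL1 : 1 ≤ L := by linarith
  have hLp0 : ∀ n : ℕ, 0 < L ^ n := fun n => by positivity
  have hLp : ∀ n : ℕ, 1 ≤ L ^ n := fun n => one_le_pow₀ hL1
  have hX1 : 1 ≤ X := by omega
  have hXr : (1 : ℝ) ≤ X := by exact_mod_cast hX1
  have hX0' : (0 : ℝ) < X := by linarith
  obtain ⟨Y, hY⟩ : ∃ Y : ℕ, Y = K0 * X := ⟨_, rfl⟩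
  have hYX : X ≤ Y := by rw [hY]; exact Nat.le_mul_of_pos_left X hK01
  have hYr : (Y : ℝ) = K0 * X := by rw [hY]; push_cast; ring
  have hXYr : (X : ℝ) ≤ Y := by exact_mod_cast hYX
  have hY0 : (0 : ℝ) < Y := by linarith
  have hY1 : 1 ≤ Y := hX1.trans hYX
  obtain ⟨ℓ, hℓ⟩ : ∃ ℓ, ℓ = Real.log Y := ⟨_, rfl⟩
  have hℓ1 : L ≤ ℓ := by
    rw [hLd, hℓ]
    exact Real.log_le_log hX0' hXYr
  have hℓ2 : ℓ ≤ 2 * L := by
    have h1 : (Y : ℝ) ≤ (X : ℝ) ^ 2 := by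
      rw [hYr, sq]
      apply mul_le_mul_of_nonneg_right _ hX0'.le
      have : K0 ≤ X := by omega
      exact_mod_cast this
    have h2 := Real.log_le_log hY0 h1
    rw [Real.log_pow, ← hℓ, ← hLd] at h2
    exact_mod_cast h2
  have hℓ0 : 0 < ℓ := by linarith
  -- z
  have hzle : (z : ℝ) ≤ L ^ E := by rw [hz]; exact Nat.floor_le (by positivity)
  have hzge : L ^ E / 2 ≤ z := by
    have h1 := Nat.lt_floor_add_one (L ^ E)
    rw [← hz] at h1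
    have h2 : L ≤ L ^ E := le_self_pow₀ hL1 (by omega)
    linarith
  have hz1 : 1 ≤ z := by
    have h2 : L ≤ L ^ E := le_self_pow₀ hL1 (by omega)
    have : (1 : ℝ) ≤ z := by linarith
    exact_mod_cast this
  have hzE : (z : ℝ) ≤ ℓ ^ E := hzle.trans (pow_le_pow_left₀ hL0.le hℓ1 _)
  have hzB : ℓ ^ B0 ≤ z := by
    calc ℓ ^ B0 ≤ (2 * L) ^ B0 := pow_le_pow_left₀ hℓ0.le hℓ2 _
      _ = 2 ^ (B0 + 1) * L ^ B0 / 2 := by rw [mul_pow, pow_succ]; ring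
      _ ≤ L * L ^ B0 / 2 := by
          have := mul_le_mul_of_nonneg_right hLB (hLp0 B0).le
          linarith
      _ = L ^ (B0 + 1) / 2 := by ring
      _ ≤ L ^ E / 2 := by
          have := pow_le_pow_right₀ hL1 (show B0 + 1 ≤ E by omega)
          linarith
      _ ≤ z := hzge
  have hsup := hN0 Y (by omega) z (by rw [← hℓ]; exact hzB) (by rw [← hℓ]; exact hzE)
  obtain ⟨habs, hsq⟩ := hN1 Y (by omega) z hz1 (by rw [← hℓ]; exact hzE)
  rw [← hℓ] at hsup hsq habs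
  refine ⟨fun v => (habs v).trans (by linarith), fun w hw => ?_⟩
  -- the second moment
  obtain ⟨M, hM⟩ : ∃ M, M = Nat.sqrt X := ⟨_, rfl⟩
  rw [← hM]
  obtain ⟨S, hS⟩ : ∃ S, S = √(X : ℝ) := ⟨_, rfl⟩
  rw [← hS] at hLC ⊢
  have hSS : S * S = X := by rw [hS]; exact Real.mul_self_sqrt hX0'.le
  have hS1 : 1 ≤ S := by
    rw [hS]; exact Real.one_le_sqrt.2 hXr
  have hS0 : 0 < S := by linarith
  have hMS : (M : ℝ) ≤ S := by
    rw [hS, hM]
    apply Real.le_sqrt_of_sq_le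
    exact_mod_cast Nat.sqrt_le' X
  have hTW : ∀ c ∈ Icc 1 (X : ℤ), TW a b w M Y (ff z) c = ∑ t ∈ Icc 1 M, w t * ff z (g a b t + c) := by
    intro c hc
    rw [mem_Icc] at hc
    unfold TW
    refine sum_congr rfl fun t ht => ?_
    rw [mem_Icc] at ht
    congr 1
    unfold tm
    by_cases h1 : 1 ≤ g a b t + c
    · rw [if_pos]
      refine ⟨h1, ?_⟩
      have ht2 : (t : ℤ) ^ 2 ≤ X := by
        have h2 : t ^ 2 ≤ X := by
          calc t ^ 2 ≤ M ^ 2 := Nat.pow_le_pow_left ht.2 2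
            _ ≤ X := by rw [hM]; exact Nat.sqrt_le' X
        exact_mod_cast h2
      have ht1 : (t : ℤ) ≤ (t : ℤ) ^ 2 := by
        have h2 : t ≤ t ^ 2 := Nat.le_self_pow (by norm_num) t
        exact_mod_cast h2
      have ht0 : (0 : ℤ) ≤ t := by positivity
      rw [hY]
      push_cast
      rw [hK0z]
      unfold g
      have hX0z : (0 : ℤ) ≤ X := by positivity
      have h3 : a * (t : ℤ) ^ 2 ≤ a * X := mul_le_mul_of_nonneg_left ht2 ha.le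
      have h4 : b * (t : ℤ) ≤ |b| * X := by
        calc b * (t : ℤ) ≤ |b| * (t : ℤ) := mul_le_mul_of_nonneg_right (le_abs_self b) ht0
          _ ≤ |b| * X := mul_le_mul_of_nonneg_left (ht1.trans ht2) (abs_nonneg b)
      nlinarith
    · rw [if_neg (by tauto)]
      unfold ff
      rw [if_neg (by omega)]
  have h2 := second a b ha.ne' w hw M Y hY1 (ff z) (Y / ℓ ^ A3) (9 * Y * ℓ ^ 2) (by positivity) hsup hsq (Icc 1 (X : ℤ))
  rw [← hℓ, sum_congr rfl fun c hc => by rw [hTW c hc]] at h2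
  have hA3p : L ^ A3 = L ^ (2 * C + 1) * L ^ A * L ^ 7 := by rw [hA3]; ring
  have hT1 : (M : ℝ) * (9 * Y * ℓ ^ 2) ≤ X ^ 2 * (L ^ 5 / L ^ A3) := by
    calc (M : ℝ) * (9 * Y * ℓ ^ 2) ≤ S * (9 * (K0 * X) * (2 * L) ^ 2) := by rw [hYr]; gcongr
      _ = S * X * L ^ 2 * (36 * K0) := by ring
      _ ≤ S * X * L ^ 2 * L := by gcongr; linarith
      _ = X * (S * L ^ 3) := by ring
      _ ≤ X * (X * (L ^ 5 / L ^ A3)) := by
          apply mul_le_mul_of_nonneg_left _ hX0'.le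
          rw [← hSS, mul_div_assoc', le_div_iff₀ (hLp0 _)]
          calc S * L ^ 3 * L ^ A3 = S * L ^ 2 * L ^ (A3 + 1) := by ring
            _ ≤ S * L ^ 2 * S := by gcongr
            _ = S * S * L ^ 2 := by ring
            _ ≤ S * S * L ^ 5 := by
                apply mul_le_mul_of_nonneg_left _ (by positivity)
                exact pow_le_pow_right₀ hL1 (by norm_num)
      _ = _ := by ring
  have hT2 : √(2 * (Y * (1 + ℓ) ^ 4)) * √((Y / ℓ ^ A3) ^ 2 * (9 * Y * ℓ ^ 2)) ≤ X ^ 2 * (L ^ 5 / L ^ A3) := by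
    rw [← Real.sqrt_mul (by positivity)]
    rw [show (X : ℝ) ^ 2 * (L ^ 5 / L ^ A3) = √((X ^ 2 * (L ^ 5 / L ^ A3)) ^ 2) by
      rw [Real.sqrt_sq (by positivity)]]
    apply Real.sqrt_le_sqrt
    have h3 : 1 / ℓ ^ A3 ≤ 1 / L ^ A3 :=
      one_div_le_one_div_of_le (hLp0 _) (pow_le_pow_left₀ hL0.le hℓ1 _)
    have h1ℓ : 1 + ℓ ≤ 3 * L := by linarith
    calc 2 * (Y * (1 + ℓ) ^ 4) * ((Y / ℓ ^ A3) ^ 2 * (9 * Y * ℓ ^ 2))
        = 18 * (Y : ℝ) ^ 4 * (1 + ℓ) ^ 4 * ℓ ^ 2 * (1 / ℓ ^ A3) ^ 2 := by ring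
      _ ≤ 18 * (Y : ℝ) ^ 4 * (3 * L) ^ 4 * (2 * L) ^ 2 * (1 / L ^ A3) ^ 2 := by gcongr
      _ = (K0 : ℝ) ^ 2 * (K0 : ℝ) ^ 2 * 5832 * ((X : ℝ) ^ 4 * L ^ 6 * (1 / L ^ A3) ^ 2) := by rw [hYr]; ring
      _ ≤ L * L * (L * L) * ((X : ℝ) ^ 4 * L ^ 6 * (1 / L ^ A3) ^ 2) := by
          apply mul_le_mul_of_nonneg_right _ (by positivity)
          have h4 : (5832 : ℝ) ≤ L * L := by nlinarith
          have h5 : (K0 : ℝ) ^ 2 * (K0 : ℝ) ^ 2 ≤ L * L := mul_le_mul hLK2 hLK2 hK2 hL0.le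
          exact mul_le_mul h5 h4 (by norm_num) (by positivity)
      _ = (X ^ 2 * (L ^ 5 / L ^ A3)) ^ 2 := by ring
  -- Chebyshev
  obtain ⟨τ, hτ⟩ : ∃ τ : ℝ, τ = S / (2 * L ^ C) := ⟨_, rfl⟩
  rw [← hτ]
  have hτ0 : 0 < τ := by rw [hτ]; positivity
  set Fs := (Icc 1 (X : ℤ)).filter (fun c : ℤ => τ < |∑ t ∈ Icc 1 M, w t * ff z (g a b t + c)|) with hFs
  have hch : (Fs.card : ℝ) * τ ^ 2 ≤ ∑ c ∈ Icc 1 (X : ℤ), (∑ t ∈ Icc 1 M, w t * ff z (g a b t + c)) ^ 2 := by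
    calc (Fs.card : ℝ) * τ ^ 2 = ∑ K ∈ Fs, τ ^ 2 := by rw [sum_const, nsmul_eq_mul]
      _ ≤ ∑ c ∈ Fs, (∑ t ∈ Icc 1 M, w t * ff z (g a b t + c)) ^ 2 := by
          refine sum_le_sum fun c hc => ?_
          rw [hFs, mem_filter] at hc
          rw [← sq_abs (∑ t ∈ Icc 1 M, w t * ff z (g a b t + c))]
          exact pow_le_pow_left₀ hτ0.le hc.2.le 2
      _ ≤ _ := sum_le_sum_of_subset_of_nonneg (filter_subset _ _) (fun _ _ _ => sq_nonneg _)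
  have h3 : (Fs.card : ℝ) * τ ^ 2 ≤ 4 * (X ^ 2 * (L ^ 5 / L ^ A3)) := by linarith
  have h4 : τ ^ 2 = X / (4 * L ^ (2 * C)) := by
    rw [hτ, div_pow, mul_pow, sq S, hSS, ← pow_mul, mul_comm C 2]
    norm_num
  rw [h4, ← le_div_iff₀ (by positivity)] at h3
  refine h3.trans ?_
  rw [hA3p, div_le_div_iff₀ (by positivity) (hLp0 _)]
  have e1 : L ^ 5 / (L ^ (2 * C + 1) * L ^ A * L ^ 7) = 1 / (L ^ (2 * C) * L ^ A * L ^ 3) := by
    rw [div_eq_div_iff (by positivity) (by positivity)]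
    ring
  rw [e1]
  have e2 : 4 * ((X : ℝ) ^ 2 * (1 / (L ^ (2 * C) * L ^ A * L ^ 3))) * L ^ A =
      X * (X / (4 * L ^ (2 * C))) * (16 / L ^ 3) := by
    field_simp
    try ring
  rw [e2]
  have h5 : 16 / L ^ 3 ≤ 1 := by
    rw [div_le_one (hLp0 3)]
    have : L ≤ L ^ 3 := le_self_pow₀ hL1 (by norm_num)
    linarith
  calc X * (X / (4 * L ^ (2 * C))) * (16 / L ^ 3) ≤ X * (X / (4 * L ^ (2 * C))) * 1 :=
        mul_le_mul_of_nonneg_left h5 (by positivity)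
    _ = _ := by ring

open Classical in
/-- **all initial segments** -/
theorem most (a b : ℤ) (ha : 0 < a) (A C : ℕ) : ∃ E1 : ℕ, ∀ E : ℕ, E1 ≤ E → ∃ X0 : ℕ, ∀ X : ℕ, X0 ≤ X →
    ∀ w : ℕ → ℝ, (∀ t, |w t| ≤ 1) →
    (((Icc 1 (X : ℤ)).filter (fun c : ℤ => ∃ y : ℕ, y ^ 2 ≤ X ∧ √(X : ℝ) / Real.log X ^ C <
      |∑ t ∈ Icc 1 y, w t * ff ⌊Real.log X ^ E⌋₊ (g a b t + c)|)).card : ℝ) ≤ X / Real.log X ^ A := by
  classical
  obtain ⟨E1, h1⟩ := one_w a b ha (A + C + 4) C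
  refine ⟨E1, fun E hE => ?_⟩
  obtain ⟨X1, h2⟩ := h1 E hE
  have hev : ∀ᶠ X : ℕ in atTop, (100 : ℝ) ≤ Real.log X ∧
      Real.log X ^ (C + 2) ≤ (X : ℝ) ^ (1 / 2 : ℝ) ∧ X1 + 2 ≤ X := by
    filter_upwards [evt_log_ge 100, evt_log_pow (C + 2) (1 / 2) (by norm_num),
      eventually_ge_atTop (X1 + 2)] with X h1 h2 h3
    exact ⟨h1, h2, h3⟩
  obtain ⟨X0, hX0⟩ := eventually_atTop.1 hev
  refine ⟨X0, fun X hX w hw => ?_⟩
  obtain ⟨hL, hLC, hXN⟩ := hX0 X hX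
  rw [← Real.sqrt_eq_rpow] at hLC
  obtain ⟨habs, hone⟩ := h2 X (by omega)
  obtain ⟨L, hLd⟩ : ∃ L, L = Real.log X := ⟨_, rfl⟩
  rw [← hLd] at hL hLC habs hone ⊢
  obtain ⟨z, hz⟩ : ∃ z, z = ⌊L ^ E⌋₊ := ⟨_, rfl⟩
  rw [← hz] at habs hone ⊢
  obtain ⟨S, hS⟩ : ∃ S, S = √(X : ℝ) := ⟨_, rfl⟩
  rw [← hS] at hLC hone ⊢
  obtain ⟨M, hM⟩ : ∃ M, M = Nat.sqrt X := ⟨_, rfl⟩
  rw [← hM] at hone
  have hL0 : 0 < L := by linarith
  have hL1 : 1 ≤ L := by linarith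
  have hLp0 : ∀ n : ℕ, 0 < L ^ n := fun n => by positivity
  have hX1 : 1 ≤ X := by omega
  have hXr : (1 : ℝ) ≤ X := by exact_mod_cast hX1
  have hS1 : 1 ≤ S := by
    rw [hS]; exact Real.one_le_sqrt.2 hXr
  have hS0 : 0 < S := by linarith
  -- the grid
  obtain ⟨q, hq⟩ : ∃ q : ℕ, q = ⌈S / L ^ (C + 2)⌉₊ := ⟨_, rfl⟩
  have hqlo : S / L ^ (C + 2) ≤ q := by rw [hq]; exact Nat.le_ceil _
  have hSq : 1 ≤ S / L ^ (C + 2) := by
    rw [le_div_iff₀ (hLp0 _), one_mul]; exact hLC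
  have hqhi : (q : ℝ) ≤ 2 * (S / L ^ (C + 2)) := by
    have := Nat.ceil_lt_add_one (show 0 ≤ S / L ^ (C + 2) by positivity)
    rw [← hq] at this
    linarith
  have hq1 : 1 ≤ q := by
    have : (1 : ℝ) ≤ q := hSq.trans hqlo
    exact_mod_cast this
  obtain ⟨J, hJ⟩ : ∃ J : ℕ, J = ⌊L ^ (C + 2)⌋₊ := ⟨_, rfl⟩
  have hJhi : (J : ℝ) ≤ L ^ (C + 2) := by rw [hJ]; exact Nat.floor_le (by positivity)
  have hyJ : ∀ y : ℕ, y ^ 2 ≤ X → y / q ≤ J := by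
    intro y hy
    rw [hJ]
    apply Nat.le_floor
    have h3 : ((y / q : ℕ) : ℝ) ≤ (y : ℝ) / q := Nat.cast_div_le
    refine h3.trans ?_
    have hq0 : (0 : ℝ) < q := by exact_mod_cast hq1
    rw [div_le_iff₀ hq0]
    have hyS : (y : ℝ) ≤ S := by
      rw [hS]
      apply Real.le_sqrt_of_sq_le
      exact_mod_cast hy
    calc (y : ℝ) ≤ S := hyS
      _ = L ^ (C + 2) * (S / L ^ (C + 2)) := by field_simp
      _ ≤ L ^ (C + 2) * q := mul_le_mul_of_nonneg_left hqlo (hLp0 _).le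
  set wj : ℕ → ℕ → ℝ := fun j t => if t ≤ j * q then w t else 0 with hwj
  have hwj1 : ∀ j t, |wj j t| ≤ 1 := by
    intro j t
    rw [hwj]
    simp only
    split_ifs
    · exact hw t
    · simp
  set Bd : ℕ → Finset ℤ := fun j => (Icc 1 (X : ℤ)).filter (fun c : ℤ => S / (2 * L ^ C) <
      |∑ t ∈ Icc 1 M, wj j t * ff z (g a b t + c)|) with hBd
  have hsub : (Icc 1 (X : ℤ)).filter (fun c : ℤ => ∃ y : ℕ, y ^ 2 ≤ X ∧ S / L ^ C <
      |∑ t ∈ Icc 1 y, w t * ff z (g a b t + c)|) ⊆ (range (J + 1)).biUnion Bd := by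
    intro c hc
    rw [mem_filter] at hc
    obtain ⟨hc1, y, hy, hc2⟩ := hc
    rw [mem_biUnion]
    refine ⟨y / q, mem_range.2 (by have := hyJ y hy; omega), ?_⟩
    rw [hBd, mem_filter]
    refine ⟨hc1, ?_⟩
    by_contra hcon
    push Not at hcon
    have hyM : y ≤ M := by rw [hM]; exact Nat.le_sqrt'.2 hy
    have hjy : y / q * q ≤ y := Nat.div_mul_le_self y q
    have e1 : ∑ t ∈ Icc 1 M, wj (y / q) t * ff z (g a b t + c) = ∑ t ∈ Icc 1 (y / q * q), w t * ff z (g a b t + c) := by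
      rw [hwj]
      simp only [ite_mul, zero_mul]
      rw [← sum_filter]
      apply sum_congr _ (fun _ _ => rfl)
      ext t
      rw [mem_filter, mem_Icc, mem_Icc]
      omega
    rw [e1] at hcon
    have e2 : ∑ t ∈ Icc 1 y, w t * ff z (g a b t + c) = ∑ t ∈ Icc 1 (y / q * q), w t * ff z (g a b t + c) +
        ∑ t ∈ Ioc (y / q * q) y, w t * ff z (g a b t + c) := by
      rw [← sum_union]
      · apply sum_congr _ (fun _ _ => rfl)
        ext t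
        rw [mem_union, mem_Icc, mem_Icc, mem_Ioc]
        omega
      · rw [disjoint_left]
        intro t ht ht'
        rw [mem_Icc] at ht
        rw [mem_Ioc] at ht'
        omega
    have h4 : |∑ t ∈ Ioc (y / q * q) y, w t * ff z (g a b t + c)| ≤ q * (6 * L) := by
      refine (abs_sum_le_sum_abs _ _).trans ?_
      calc ∑ t ∈ Ioc (y / q * q) y, |w t * ff z (g a b t + c)| ≤ ∑ _t ∈ Ioc (y / q * q) y, 6 * L := by
            refine sum_le_sum fun t _ => ?_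
            rw [abs_mul]
            have h5 := mul_le_mul (hw t) (habs (g a b t + c)) (abs_nonneg _) zero_le_one
            linarith
        _ = ((y - y / q * q : ℕ) : ℝ) * (6 * L) := by rw [sum_const, Nat.card_Ioc, nsmul_eq_mul]
        _ ≤ q * (6 * L) := by
            apply mul_le_mul_of_nonneg_right _ (by positivity)
            have h6 : y - y / q * q ≤ q := by
              have h7 := Nat.mod_add_div y q
              have h8 := Nat.mod_lt y (show 0 < q by omega)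
              rw [mul_comm] at h7
              omega
            exact_mod_cast h6
    have h5 : (q : ℝ) * (6 * L) ≤ S / (2 * L ^ C) := by
      calc (q : ℝ) * (6 * L) ≤ 2 * (S / L ^ (C + 2)) * (6 * L) := by gcongr
        _ = S / (2 * L ^ C) * (24 / L) := by
            rw [pow_add]
            field_simp
            try ring
        _ ≤ S / (2 * L ^ C) * 1 := by
            apply mul_le_mul_of_nonneg_left _ (by positivity)
            rw [div_le_one hL0]; linarith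
        _ = _ := mul_one _
    have h6 : S / L ^ C = S / (2 * L ^ C) + S / (2 * L ^ C) := by
      field_simp
      try ring
    rw [e2] at hc2
    have h7 := abs_add_le (∑ t ∈ Icc 1 (y / q * q), w t * ff z (g a b t + c)) (∑ t ∈ Ioc (y / q * q) y, w t * ff z (g a b t + c))
    linarith
  have hcard : (((Icc 1 (X : ℤ)).filter (fun c : ℤ => ∃ y : ℕ, y ^ 2 ≤ X ∧ S / L ^ C <
      |∑ t ∈ Icc 1 y, w t * ff z (g a b t + c)|)).card : ℝ) ≤ ∑ j ∈ range (J + 1), ((Bd j).card : ℝ) := by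
    exact_mod_cast (card_le_card hsub).trans card_biUnion_le
  refine hcard.trans ?_
  calc ∑ j ∈ range (J + 1), ((Bd j).card : ℝ) ≤ ∑ _j ∈ range (J + 1), X / L ^ (A + C + 4) :=
        sum_le_sum fun j _ => hone (wj j) (hwj1 j)
    _ = ((J : ℝ) + 1) * (X / L ^ (A + C + 4)) := by rw [sum_const, card_range, nsmul_eq_mul]; push_cast; ring
    _ ≤ (2 * L ^ (C + 2)) * (X / L ^ (A + C + 4)) := by
        gcongr
        have := one_le_pow₀ (n := C + 2) hL1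
        linarith
    _ = X / L ^ A * (2 / L ^ 2) := by
        rw [show A + C + 4 = A + (C + 2) + 2 by ring, pow_add, pow_add]
        field_simp
        try ring
    _ ≤ X / L ^ A * 1 := by
        apply mul_le_mul_of_nonneg_left _ (by positivity)
        rw [div_le_one (by positivity)]
        nlinarith
    _ = _ := mul_one _

end Pool.Agent.N740.PA
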