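import Pool.Agent.N740.PA.FL
import Pool.Agent.N740.PA.Most
import Pool.Agent.R460.SC.Fa
import Pool.Agent.R460.SC.Cl

/-!
The sieve model of the primes, summed over the values of one quadratic polynomial with weights on the
arguments which are equidistributed in the residue classes of small moduli.
-/

set_option autoImplicit false

namespace Pool.Agent.N740.PA

open Finset Filter Topology
open Pool.Agent.W41 (JJ JJ_small)
open Pool.Agent.H373R2.T7 (pz Vz lamz Vz_pos Vz_inv_small nuB nuB_le mem_pz)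
open Pool.Agent.R460.SB (Sz Sz_prod Sz_bd QS QS_per QS_few fv wl wl_bd wl_mono fv_two)
open Pool.Agent.TH892.SW (ff ffn wt)

/-- partial summation with a decreasing weight, keeping the relative error -/
lemma abel_mono (ω w d : ℕ → ℝ) (m : ℕ) (β E : ℝ) (hE : 0 ≤ E)
    (hω0 : ∀ t, 0 ≤ ω t) (hω : ∀ t, m + 1 ≤ t → ω (t + 1) ≤ ω t) (n : ℕ) (hn : m + 1 ≤ n)
    (hd : ∀ k, k ≤ n → |∑ t ∈ Ioc m k, d t| ≤ β * ∑ t ∈ Ioc m k, w t + E) :
    |∑ t ∈ Ioc m n, ω t * d t| ≤ β * ∑ t ∈ Ioc m n, ω t * w t + E * ω (m + 1) := by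
  have key : ∀ k, m + 1 ≤ k → k ≤ n → |∑ t ∈ Ioc m k, ω t * d t - ω k * ∑ t ∈ Ioc m k, d t| ≤
      (β * ∑ t ∈ Ioc m k, ω t * w t - β * (ω k * ∑ t ∈ Ioc m k, w t)) + E * (ω (m + 1) - ω k) := by
    intro k hk
    induction k, hk using Nat.le_induction with
    | base =>
      intro _
      rw [Nat.Ioc_succ_singleton]
      simp
    | succ k hk ih =>
      intro hkn
      have h1 := ih (by omega)
      have h2 := hd k (by omega)
      have h3 := hω k hk
      rw [sum_Ioc_succ_top (by omega), sum_Ioc_succ_top (by omega), sum_Ioc_succ_top (by omega),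
        sum_Ioc_succ_top (by omega)]
      have e : ∑ t ∈ Ioc m k, ω t * d t + ω (k + 1) * d (k + 1) - ω (k + 1) * (∑ t ∈ Ioc m k, d t + d (k + 1)) =
          (∑ t ∈ Ioc m k, ω t * d t - ω k * ∑ t ∈ Ioc m k, d t) + (ω k - ω (k + 1)) * ∑ t ∈ Ioc m k, d t := by ring
      rw [e]
      refine (abs_add_le _ _).trans ?_
      have h4 : |(ω k - ω (k + 1)) * ∑ t ∈ Ioc m k, d t| ≤ (ω k - ω (k + 1)) * (β * ∑ t ∈ Ioc m k, w t + E) := by
        rw [abs_mul, abs_of_nonneg (by linarith)]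
        exact mul_le_mul_of_nonneg_left h2 (by linarith)
      nlinarith [h1, h4]
  have h1 := key n hn le_rfl
  have h2 := hd n le_rfl
  have h3 : |ω n * ∑ t ∈ Ioc m n, d t| ≤ ω n * (β * ∑ t ∈ Ioc m n, w t + E) := by
    rw [abs_mul, abs_of_nonneg (hω0 n)]
    exact mul_le_mul_of_nonneg_left h2 (hω0 n)
  have h4 := abs_add_le (∑ t ∈ Ioc m n, ω t * d t - ω n * ∑ t ∈ Ioc m n, d t) (ω n * ∑ t ∈ Ioc m n, d t)
  rw [sub_add_cancel] at h4
  nlinarith [h1, h3, h4]

/-- `t` gives a value without prime factors `≤ z` -/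
def Fr (a b c : ℤ) (z t : ℕ) : Prop := ∀ p ∈ pz z, ¬ QS (-a) (-b) c p t

open Classical in
lemma model_eq {a b c : ℤ} (ha : 0 < a) (hc : b ^ 2 + 2 ≤ c) (z t : ℕ) :
    lamz z (fv (-a) (-b) c t).toNat * wt (fv (-a) (-b) c t).toNat =
      wl a b c t * (if Fr a b c z t then (Vz z)⁻¹ else 0) := by
  have h2 := fv_two ha hc t
  have h3 : ((fv (-a) (-b) c t).toNat : ℤ) = fv (-a) (-b) c t := Int.toNat_of_nonneg (by omega)
  have e1 : lamz z (fv (-a) (-b) c t).toNat = if Fr a b c z t then (Vz z)⁻¹ else 0 := by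
    unfold lamz
    have : (∀ p ∈ pz z, ¬ p ∣ (fv (-a) (-b) c t).toNat) ↔ Fr a b c z t := by
      unfold Fr
      apply forall₂_congr
      intro p _
      rw [not_iff_not]
      have : QS (-a) (-b) c p t ↔ (p : ℤ) ∣ fv (-a) (-b) c t := Iff.rfl
      rw [this, ← h3]
      exact Int.natCast_dvd_natCast.symm
    simp only [this]
  have e2 : wt (fv (-a) (-b) c t).toNat = wl a b c t := by
    unfold wt wl
    rw [← h3, Int.cast_natCast, h3]
  rw [e1, e2, mul_comm]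

/-- **the sieve model with equidistributed weights** -/
theorem one_c (a b : ℤ) (ha : 0 < a) (C E : ℕ) (ε : ℝ) (hε : 0 < ε) :
    ∃ B X0 : ℕ, ∀ X : ℕ, X0 ≤ X → ∀ z : ℕ, 3 ≤ z → (z : ℝ) ≤ Real.log X ^ E →
    ∀ w : ℕ → ℝ, (∀ t, 0 ≤ w t ∧ w t ≤ 1) →
    (∀ d : ℕ, 1 ≤ d → (d : ℝ) ≤ Real.log X ^ B → ∀ r y : ℕ, y ^ 2 ≤ X →
      |∑ t ∈ (Icc 1 y).filter (fun t => t ≡ r [MOD d]), w t - (∑ t ∈ Icc 1 y, w t) / (d : ℝ)| ≤
        √(X : ℝ) / Real.log X ^ B) →
    ∀ c : ℤ, b ^ 2 + 2 ≤ c → ∀ y : ℕ, y ^ 2 ≤ X →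
    |∑ t ∈ Icc 1 y, w t * (lamz z (fv (-a) (-b) c t).toNat * wt (fv (-a) (-b) c t).toNat) -
      Sz (-a) (-b) c z * ∑ t ∈ Icc 1 y, w t * wl a b c t| ≤
      ε * (Sz (-a) (-b) c z * ∑ t ∈ Icc 1 y, w t * wl a b c t) + √(X : ℝ) / Real.log X ^ C := by
  classical
  obtain ⟨C0, K0, hC0, hK01, hfl⟩ := fl_w ((-a).natAbs + 2)
  obtain ⟨β0, hβ0⟩ : ∃ β0 : ℕ, (1 / 2 : ℝ) ^ β0 < ε := exists_pow_lt_of_lt_one hε (by norm_num)
  obtain ⟨β, hβd⟩ : ∃ β, β = C0 + β0 := ⟨_, rfl⟩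
  have hβ : (1 / 2 : ℝ) ^ β ≤ ε := by
    refine le_trans ?_ hβ0.le
    exact pow_le_pow_of_le_one (by norm_num) (by norm_num) (by omega)
  obtain ⟨H, hH⟩ : ∃ H, H = 2 * (C0 * β) := ⟨_, rfl⟩
  obtain ⟨B, hB⟩ : ∃ B, B = E * (2 * H + 1) + C + 5 := ⟨_, rfl⟩
  obtain ⟨N2, hN2⟩ := Vz_inv_small E
  have hev : ∀ᶠ X : ℕ in atTop, (100 + K0 + 8 * b.natAbs : ℝ) ≤ Real.log X ∧
      Real.log X ^ (C + 4) ≤ (X : ℝ) ^ (1 / 2 : ℝ) ∧ N2 + 2 ≤ X := by
    filter_upwards [evt_log_ge (100 + K0 + 8 * b.natAbs), evt_log_pow (C + 4) (1 / 2) (by norm_num),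
      eventually_ge_atTop (N2 + 2)] with X h1 h2 h3
    exact ⟨h1, h2, h3⟩
  obtain ⟨X0, hX0⟩ := eventually_atTop.1 hev
  refine ⟨B, X0, fun X hX z hz hzE w hw heq c hc y hy => ?_⟩
  obtain ⟨hL, hLC, hXN⟩ := hX0 X hX
  rw [← Real.sqrt_eq_rpow] at hLC
  have hV := hN2 X (by omega) z (by omega) hzE
  obtain ⟨L, hLd⟩ : ∃ L, L = Real.log X := ⟨_, rfl⟩
  obtain ⟨S, hS⟩ : ∃ S, S = √(X : ℝ) := ⟨_, rfl⟩
  rw [← hLd] at hL hLC heq hzE hV ⊢
  rw [← hS] at hLC heq ⊢
  obtain ⟨s, hs⟩ : ∃ s, s = Sz (-a) (-b) c z := ⟨_, rfl⟩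
  obtain ⟨hs0, hsV⟩ := Sz_bd (-a) (-b) c z
  have hsdef : s = (Vz z)⁻¹ * ∏ p ∈ pz z, (1 - (nuB (QS (-a) (-b) c) p : ℝ) / p) := by rw [hs]; rfl
  rw [← hs] at hs0 hsV ⊢
  obtain ⟨m, hm⟩ : ∃ m, m = b.natAbs := ⟨_, rfl⟩
  rw [← hm] at hL
  have hK0r : (1 : ℝ) ≤ K0 := by exact_mod_cast hK01
  have hm0 : (0 : ℝ) ≤ m := Nat.cast_nonneg m
  have hL100 : 100 ≤ L := by linarith
  have hLK : (K0 : ℝ) ≤ L := by linarith
  have hLm : 8 * (m : ℝ) ≤ L := by linarith
  have hL0 : 0 < L := by linarith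
  have hL1 : 1 ≤ L := by linarith
  have hLp0 : ∀ n : ℕ, 0 < L ^ n := fun n => by positivity
  have hX1 : 1 ≤ X := by omega
  have hXr : (1 : ℝ) ≤ X := by exact_mod_cast hX1
  have hS1 : 1 ≤ S := by
    rw [hS]; exact Real.one_le_sqrt.2 hXr
  have hS0 : 0 < S := by linarith
  have hVp := Vz_pos z
  have hVi : 0 < (Vz z)⁻¹ := inv_pos.2 hVp
  -- the terms
  set ω : ℕ → ℝ := fun t => wl a b c t with hω
  set fr : ℕ → ℝ := fun t => if Fr a b c z t then (Vz z)⁻¹ else 0 with hfr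
  have hω0 : ∀ t, 0 ≤ ω t := fun t => (wl_bd ha hc t).1.le
  have hω2 : ∀ t, ω t ≤ 2 := fun t => (wl_bd ha hc t).2
  have hfr0 : ∀ t, 0 ≤ fr t := by
    intro t
    rw [hfr]
    simp only
    split_ifs
    · exact hVi.le
    · exact le_rfl
  have hfrL : ∀ t, fr t ≤ L := by
    intro t
    rw [hfr]
    simp only
    split_ifs
    · exact hV
    · linarith
  obtain ⟨d, hd⟩ : ∃ d : ℕ → ℝ, d = fun t => w t * (fr t - s) := ⟨_, rfl⟩
  have hsum : ∀ A : Finset ℕ, ∑ t ∈ A, w t * (lamz z (fv (-a) (-b) c t).toNat * wt (fv (-a) (-b) c t).toNat) -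
      s * ∑ t ∈ A, w t * ω t = ∑ t ∈ A, ω t * d t := by
    intro A
    rw [mul_sum, ← sum_sub_distrib]
    apply sum_congr rfl
    intro t _
    rw [model_eq ha hc z t, hd]
    show w t * (ω t * fr t) - s * (w t * ω t) = ω t * (w t * (fr t - s))
    ring
  have hdb : ∀ t, |d t| ≤ L := by
    intro t
    rw [hd]
    simp only
    rw [abs_mul, abs_of_nonneg (hw t).1]
    have h1 : |fr t - s| ≤ L := by
      rw [abs_le]
      constructor
      · have := hfr0 t; linarith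
      · have := hfrL t; linarith
    calc w t * |fr t - s| ≤ 1 * L := mul_le_mul (hw t).2 h1 (abs_nonneg _) (by norm_num)
      _ = L := one_mul L
  have htriv : ∀ k, k ≤ m → |∑ t ∈ Icc 1 k, ω t * d t| ≤ S / L ^ C / 2 := by
    intro k hk
    calc |∑ t ∈ Icc 1 k, ω t * d t| ≤ ∑ t ∈ Icc 1 k, |ω t * d t| := abs_sum_le_sum_abs _ _
      _ ≤ ∑ _t ∈ Icc 1 k, 2 * L := by
          refine sum_le_sum fun t _ => ?_
          rw [abs_mul, abs_of_nonneg (hω0 t)]
          exact mul_le_mul (hω2 t) (hdb t) (abs_nonneg _) (by norm_num)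
      _ = k * (2 * L) := by rw [sum_const, Nat.card_Icc, Nat.add_sub_cancel, nsmul_eq_mul]
      _ ≤ m * (2 * L) := by gcongr
      _ ≤ L * L := by nlinarith
      _ ≤ S / L ^ C / 2 := by
          rw [le_div_iff₀ (by norm_num), le_div_iff₀ (hLp0 C)]
          calc L * L * 2 * L ^ C ≤ L * L * L * L ^ C := by gcongr; linarith
            _ = L ^ (C + 3) := by ring
            _ ≤ L ^ (C + 4) := pow_le_pow_right₀ hL1 (by omega)
            _ ≤ S := hLC
  have hsum0 : ∀ A : Finset ℕ, 0 ≤ ∑ t ∈ A, w t * ω t :=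
    fun A => sum_nonneg fun t _ => mul_nonneg (hw t).1 (hω0 t)
  rw [show ∑ t ∈ Icc 1 y, w t * wl a b c t = ∑ t ∈ Icc 1 y, w t * ω t from rfl, hsum]
  rcases le_or_gt y m with hym | hym
  · refine (htriv y hym).trans ?_
    have h1 : 0 ≤ ε * (s * ∑ t ∈ Icc 1 y, w t * ω t) :=
      mul_nonneg hε.le (mul_nonneg hs0 (hsum0 _))
    have h2 : 0 ≤ S / L ^ C := by positivity
    linarith
  -- the fundamental lemma
  obtain ⟨Er, hEr⟩ : ∃ Er, Er = S / L ^ C / 4 := ⟨_, rfl⟩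
  have hEr0 : 0 ≤ Er := by rw [hEr]; positivity
  have hD : ∀ k, k ≤ y → |∑ t ∈ Ioc m k, d t| ≤ ε * ∑ t ∈ Ioc m k, s * w t + Er := by
    intro k hk
    have hk2 : k ^ 2 ≤ X := (Nat.pow_le_pow_left hk 2).trans hy
    have hm2 : m ^ 2 ≤ X := (Nat.pow_le_pow_left hym.le 2).trans hy
    rcases le_or_gt k m with hkm | hkm
    · rw [Ioc_eq_empty (by omega)]
      simpa using hEr0
    obtain ⟨W, hW⟩ : ∃ W, W = ∑ t ∈ Ioc m k, w t := ⟨_, rfl⟩
    have hW0 : 0 ≤ W := by rw [hW]; exact sum_nonneg fun t _ => (hw t).1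
    have hη0 : 0 ≤ 2 * (S / L ^ B) := by positivity
    have hsplit : ∀ (Q : ℕ → Prop) [DecidablePred Q], ∑ t ∈ (Icc 1 k).filter Q, w t =
        ∑ t ∈ (Icc 1 m).filter Q, w t + ∑ t ∈ (Ioc m k).filter Q, w t := by
      intro Q _
      rw [← sum_union]
      · apply sum_congr _ (fun _ _ => rfl)
        rw [← filter_union]
        congr 1
        ext t
        rw [mem_union, mem_Icc, mem_Icc, mem_Ioc]
        omega
      · rw [disjoint_left]
        intro t ht ht'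
        rw [mem_filter, mem_Icc] at ht
        rw [mem_filter, mem_Ioc] at ht'
        omega
    have hsplit' : ∑ t ∈ Icc 1 k, w t = ∑ t ∈ Icc 1 m, w t + W := by
      have := hsplit (fun _ => True)
      simpa [hW] using this
    have hzr : (1 : ℝ) ≤ z := by exact_mod_cast (by omega : 1 ≤ z)
    have hzH : (z : ℝ) ^ H ≤ L ^ (E * H) := by
      rw [pow_mul]
      exact pow_le_pow_left₀ (by linarith) hzE H
    have key := hfl β (by omega) z (by omega) (Ioc m k) w W (2 * (S / L ^ B)) (pz z) (fun p n => QS (-a) (-b) c p n)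
      (fun t _ => (hw t).1) hW0 hη0
      (fun p hp => ⟨(mem_pz.1 hp).2, (mem_pz.1 hp).1, by
        have h1 := QS_few (γ := -b) (show -a ≠ 0 by omega) c p (mem_pz.1 hp).2
        unfold nuB at h1
        convert h1 using 1⟩)
      (by
        intro d' hd1 hd2 r
        have hdr : (d' : ℝ) ≤ L ^ B := by
          have h1 : (d' : ℝ) ≤ K0 * (z : ℝ) ^ H := by
            rw [hH]
            exact_mod_cast hd2
          calc (d' : ℝ) ≤ K0 * (z : ℝ) ^ H := h1
            _ ≤ L * L ^ (E * H) := by gcongr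
            _ = L ^ (E * H + 1) := by ring
            _ ≤ L ^ B := by
                apply pow_le_pow_right₀ hL1
                rw [hB]
                have : E * (2 * H + 1) = 2 * (E * H) + E := by ring
                omega
        have g1 := heq d' hd1 hdr r k hk2
        have g2 := heq d' hd1 hdr r m hm2
        have e1 : ∑ t ∈ (Ioc m k).filter (fun t => t ≡ r [MOD d']), w t - W / (d' : ℝ) =
            (∑ t ∈ (Icc 1 k).filter (fun t => t ≡ r [MOD d']), w t - (∑ t ∈ Icc 1 k, w t) / (d' : ℝ)) -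
            (∑ t ∈ (Icc 1 m).filter (fun t => t ≡ r [MOD d']), w t - (∑ t ∈ Icc 1 m, w t) / (d' : ℝ)) := by
          rw [hsplit (fun t => t ≡ r [MOD d']), hsplit', add_div]
          ring
        have e2 : ∑ m_1 ∈ (Ioc m k).filter (fun m_1 => m_1 ≡ r [MOD d']), w m_1 =
          ∑ t ∈ (Ioc m k).filter (fun t => t ≡ r [MOD d']), w t := rfl
        rw [e2, e1]
        refine (abs_sub _ _).trans ?_
        linarith)
    have hP : ∏ p ∈ pz z, (1 - (((range p).filter (fun a' => QS (-a) (-b) c p a')).card : ℝ) / p) =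
        ∏ p ∈ pz z, (1 - (nuB (QS (-a) (-b) c) p : ℝ) / p) := by
      apply prod_congr rfl
      intro p _
      unfold nuB
      congr
    rw [hP] at key
    obtain ⟨P, hPd⟩ : ∃ P, P = ∏ p ∈ pz z, (1 - (nuB (QS (-a) (-b) c) p : ℝ) / p) := ⟨_, rfl⟩
    rw [← hPd] at key hsdef
    have hfrs : ∑ t ∈ Ioc m k, d t = (Vz z)⁻¹ * (∑ t ∈ (Ioc m k).filter (fun n => ∀ p ∈ pz z, ¬ QS (-a) (-b) c p (n % p)), w t - W * P) := by
      have e3 : ∑ t ∈ (Ioc m k).filter (fun n => ∀ p ∈ pz z, ¬ QS (-a) (-b) c p (n % p)), w t =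
          ∑ t ∈ Ioc m k, if Fr a b c z t then w t else 0 := by
        rw [← sum_filter]
        apply sum_congr _ (fun _ _ => rfl)
        apply filter_congr
        intro t _
        unfold Fr
        apply forall₂_congr
        intro p _
        rw [not_iff_not]
        exact (QS_per (-a) (-b) c p t).symm
      rw [e3, mul_sub, mul_sum, hd]
      simp only [mul_sub]
      rw [sum_sub_distrib, ← sum_mul, ← hW]
      congr 1
      · apply sum_congr rfl
        intro t _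
        rw [hfr]
        simp only
        split_ifs
        · ring
        · ring
      · rw [hsdef]; ring
    have hW2 : ∑ t ∈ Ioc m k, s * w t = s * W := by rw [← mul_sum, hW]
    rw [hfrs, hW2, abs_mul, abs_of_pos hVi]
    have hkey2 := mul_le_mul_of_nonneg_left key hVi.le
    refine hkey2.trans ?_
    rw [mul_add]
    apply add_le_add
    · calc (Vz z)⁻¹ * ((1 / 2 : ℝ) ^ β * (W * P)) = (1 / 2 : ℝ) ^ β * (s * W) := by rw [hsdef]; ring
        _ ≤ ε * (s * W) := mul_le_mul_of_nonneg_right hβ (mul_nonneg hs0 hW0)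
    · have hJ : ((JJ z : ℝ) + 2) ≤ 2 * z := by exact_mod_cast JJ_small z hz
      have hzz : (z : ℝ) ≤ L ^ E := hzE
      calc (Vz z)⁻¹ * (((JJ z : ℝ) + 2) * ((z : ℝ) ^ (2 * (C0 * β)) * (K0 * (z : ℝ) ^ (2 * (C0 * β)) * (2 * (S / L ^ B)))))
          ≤ L * ((2 * L ^ E) * (L ^ (E * H) * (L * L ^ (E * H) * (2 * (S / L ^ B))))) := by
            rw [← hH]
            gcongr
            linarith
        _ = 4 * (S / L ^ B) * (L ^ (E * (2 * H + 1)) * L ^ 2) := by ring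
        _ = 4 * S * (L ^ (E * (2 * H + 1)) * L ^ 2 / L ^ B) := by ring
        _ = 4 * S / (L ^ C * L ^ 3) := by
            rw [hB, pow_add, pow_add]
            field_simp
            try ring
        _ ≤ Er := by
            rw [hEr, div_div, div_le_div_iff₀ (by positivity) (by positivity)]
            have h16 : 16 ≤ L ^ 3 := by
              have : L ≤ L ^ 3 := le_self_pow₀ hL1 (by norm_num)
              linarith
            have h17 : 0 ≤ S * L ^ C := by positivity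
            nlinarith [mul_le_mul_of_nonneg_left h16 h17]
  have hab := abel_mono ω (fun t => s * w t) d m ε Er hEr0 hω0
    (fun t ht => wl_mono ha hc (by omega)) y hym hD
  have hsp : ∀ g' : ℕ → ℝ, ∑ t ∈ Icc 1 y, g' t = ∑ t ∈ Icc 1 m, g' t + ∑ t ∈ Ioc m y, g' t := by
    intro g'
    rw [← sum_union]
    · apply sum_congr _ (fun _ _ => rfl)
      ext t
      rw [mem_union, mem_Icc, mem_Icc, mem_Ioc]
      omega
    · rw [disjoint_left]
      intro t ht ht'
      rw [mem_Icc] at ht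
      rw [mem_Ioc] at ht'
      omega
  rw [hsp (fun t => ω t * d t)]
  refine (abs_add_le _ _).trans ?_
  have h1 := htriv m le_rfl
  have h2 : ∑ t ∈ Ioc m y, ω t * (s * w t) ≤ s * ∑ t ∈ Icc 1 y, w t * ω t := by
    rw [hsp (fun t => w t * ω t), mul_add]
    have h3 : ∑ t ∈ Ioc m y, ω t * (s * w t) = s * ∑ t ∈ Ioc m y, w t * ω t := by
      rw [mul_sum]
      apply sum_congr rfl
      intro t _
      ring
    rw [h3]
    have h4 := mul_nonneg hs0 (hsum0 (Icc 1 m))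
    linarith
  have h5 : Er * ω (m + 1) ≤ S / L ^ C / 2 := by
    calc Er * ω (m + 1) ≤ Er * 2 := mul_le_mul_of_nonneg_left (hω2 _) hEr0
      _ = S / L ^ C / 2 := by rw [hEr]; ring
  have h6 := mul_le_mul_of_nonneg_left h2 hε.le
  linarith

end Pool.Agent.N740.PA
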