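import Pool.Agent.TH892.SW.S1

/-!
Second moment over `c` of the sums of a function at the values of `a t² + b t + c`, with arbitrary
bounded weights on the arguments `t` (after `Pool.Agent.TH892.SW.second`, which is the case of
`t² - K` without weights).
-/

set_option autoImplicit false

namespace Pool.Agent.N740.PA

open Finset
open Pool.Agent.W110.HV (cor cor_sq ES)
open Pool.Agent.TH892.SW (rc rc_cor rc_zero rc_big div_sq)

/-- the polynomial without constant term -/
def g (a b : ℤ) (t : ℕ) : ℤ := a * (t : ℤ) ^ 2 + b * (t : ℤ)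

/-- one term -/
noncomputable def tm (a b : ℤ) (Y : ℕ) (f : ℤ → ℝ) (c : ℤ) (t : ℕ) : ℝ :=
  if 1 ≤ g a b t + c ∧ g a b t + c ≤ Y then f (g a b t + c) else 0

/-- the weighted sum of `f` at the values of `a t² + b t + c` in `[1,Y]` -/
noncomputable def TW (a b : ℤ) (w : ℕ → ℝ) (M Y : ℕ) (f : ℤ → ℝ) (c : ℤ) : ℝ :=
  ∑ t ∈ Icc 1 M, w t * tm a b Y f c t

/-- one pair -/
lemma pair_sum (a b : ℤ) (Y n n' : ℕ) (f : ℤ → ℝ) (U : Finset ℤ)
    (hU : ∀ v ∈ Icc (1 : ℤ) Y, v - g a b n ∈ U) :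
    ∑ c ∈ U, tm a b Y f c n * tm a b Y f c n' = rc Y f (g a b n' - g a b n) := by
  unfold rc
  set h := g a b n' - g a b n with hh
  rw [sum_comm]
  have e1 : ∀ v ∈ Icc (1 : ℤ) Y, (∑ u ∈ Icc (1 : ℤ) Y, if u - v = h then f u * f v else 0) =
      if 1 ≤ v + h ∧ v + h ≤ Y then f v * f (v + h) else 0 := by
    intro v _
    rw [← sum_filter]
    split_ifs with hc
    · have : (Icc (1 : ℤ) Y).filter (fun u => u - v = h) = {v + h} := by
        ext u
        rw [mem_filter, mem_singleton, mem_Icc]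
        constructor
        · rintro ⟨_, h⟩; omega
        · rintro rfl; exact ⟨hc, by omega⟩
      rw [this, sum_singleton]
      ring
    · apply sum_eq_zero
      intro u hu
      rw [mem_filter, mem_Icc] at hu
      exfalso
      apply hc
      omega
  rw [sum_congr rfl e1]
  have e2 : ∀ c : ℤ, tm a b Y f c n * tm a b Y f c n' =
      if 1 ≤ g a b n + c ∧ g a b n + c ≤ Y then
        (if 1 ≤ g a b n + c + h ∧ g a b n + c + h ≤ Y then
          f (g a b n + c) * f (g a b n + c + h) else 0) else 0 := by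
    intro c
    unfold tm
    have e3 : g a b n' + c = g a b n + c + h := by rw [hh]; ring
    rw [e3]
    split_ifs <;> simp
  simp_rw [e2]
  rw [← sum_filter]
  refine sum_nbij' (fun c => g a b n + c) (fun v => v - g a b n) ?_ ?_ ?_ ?_ ?_
  · intro c hc
    rw [mem_filter] at hc
    exact mem_Icc.2 hc.2
  · intro v hv
    have h1 := hU v hv
    rw [mem_Icc] at hv
    rw [mem_filter]
    refine ⟨h1, ?_⟩
    have e4 : g a b n + (v - g a b n) = v := by ring
    rw [e4]
    exact hv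
  · intro c _; ring
  · intro v _; ring
  · intro c _
    rfl

lemma energy (a b : ℤ) (w : ℕ → ℝ) (M Y : ℕ) (f : ℤ → ℝ) (U : Finset ℤ)
    (hU : ∀ n ∈ Icc 1 M, ∀ v ∈ Icc (1 : ℤ) Y, v - g a b n ∈ U) :
    ∑ c ∈ U, TW a b w M Y f c ^ 2 =
      ∑ n ∈ Icc 1 M, ∑ n' ∈ Icc 1 M, w n * w n' * rc Y f (g a b n' - g a b n) := by
  have e1 : ∀ c : ℤ, TW a b w M Y f c ^ 2 = ∑ n ∈ Icc 1 M, ∑ n' ∈ Icc 1 M,
      w n * w n' * (tm a b Y f c n * tm a b Y f c n') := by
    intro c
    unfold TW
    rw [sq, sum_mul_sum]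
    exact sum_congr rfl fun n _ => sum_congr rfl fun n' _ => by ring
  simp_rw [e1]
  rw [sum_comm]
  refine sum_congr rfl fun n hn => ?_
  rw [sum_comm]
  refine sum_congr rfl fun n' _ => ?_
  rw [← mul_sum, pair_sum a b Y n n' f U (hU n hn)]

lemma g_sub (a b : ℤ) (n n' : ℕ) :
    g a b n' - g a b n = ((n' : ℤ) - n) * (a * ((n' : ℤ) + n) + b) := by
  unfold g; ring

/-- the number of representations as a difference of two values -/
lemma fiber_le (a b : ℤ) (ha : a ≠ 0) (M : ℕ) (h : ℤ) (hh : h ≠ 0) :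
    (((Icc 1 M) ×ˢ (Icc 1 M)).filter (fun p : ℕ × ℕ => g a b p.2 - g a b p.1 = h)).card ≤
      2 * h.natAbs.divisors.card := by
  have hcard : (({1, -1} : Finset ℤ) ×ˢ h.natAbs.divisors).card = 2 * h.natAbs.divisors.card := by
    rw [card_product]; rfl
  rw [← hcard]
  refine card_le_card_of_injOn (fun p => (((p.2 : ℤ) - p.1).sign, ((p.2 : ℤ) - p.1).natAbs)) ?_ ?_
  · intro p hp
    rw [mem_coe, mem_filter] at hp
    have h1 := hp.2
    rw [g_sub] at h1
    have h0 : (p.2 : ℤ) - p.1 ≠ 0 := by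
      intro h2
      rw [h2, zero_mul] at h1
      exact hh h1.symm
    rw [mem_coe, mem_product, mem_insert, mem_singleton, Nat.mem_divisors]
    refine ⟨?_, ?_, by omega⟩
    · rcases lt_or_gt_of_ne h0 with h2 | h2
      · right; exact Int.sign_eq_neg_one_of_neg h2
      · left; exact Int.sign_eq_one_of_pos h2
    · show ((p.2 : ℤ) - p.1).natAbs ∣ h.natAbs
      rw [Int.natAbs_dvd_natAbs]
      exact ⟨_, h1.symm⟩
  · intro p hp q hq hpq
    rw [mem_coe, mem_filter] at hp hq
    simp only [Prod.mk.injEq] at hpq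
    have hP := hp.2
    have hQ := hq.2
    rw [g_sub] at hP hQ
    have hd : (p.2 : ℤ) - p.1 = (q.2 : ℤ) - q.1 := by
      rw [← Int.sign_mul_natAbs ((p.2 : ℤ) - p.1), ← Int.sign_mul_natAbs ((q.2 : ℤ) - q.1), hpq.1, hpq.2]
    have h0 : (q.2 : ℤ) - q.1 ≠ 0 := by
      intro h2
      rw [h2, zero_mul] at hQ
      exact hh hQ.symm
    rw [hd] at hP
    have h1 := mul_left_cancel₀ h0 (hP.trans hQ.symm)
    have h2 : a * (((p.2 : ℤ) + p.1) - ((q.2 : ℤ) + q.1)) = 0 := by linarith
    rcases mul_eq_zero.1 h2 with h3 | h3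
    · exact absurd h3 ha
    · apply Prod.ext <;> omega

/-- the diagonal -/
lemma diag_le (a b : ℤ) (ha : a ≠ 0) (M : ℕ) :
    (((Icc 1 M) ×ˢ (Icc 1 M)).filter (fun p : ℕ × ℕ => g a b p.2 - g a b p.1 = 0)).card ≤ 2 * M := by
  classical
  have hcard : ((Icc 1 M) ×ˢ ({true, false} : Finset Bool)).card = 2 * M := by
    rw [card_product, Nat.card_Icc, show #({true, false} : Finset Bool) = 2 from rfl]; omega
  rw [← hcard]
  refine card_le_card_of_injOn (fun p => (p.1, decide (p.2 = p.1))) ?_ ?_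
  · intro p hp
    rw [mem_coe, mem_filter, mem_product] at hp
    rw [mem_coe, mem_product]
    refine ⟨hp.1.1, ?_⟩
    by_cases h : p.2 = p.1 <;> simp [h]
  · intro p hp q hq hpq
    rw [mem_coe, mem_filter] at hp hq
    simp only [Prod.mk.injEq] at hpq
    obtain ⟨h1, h2⟩ := hpq
    have hP := hp.2
    have hQ := hq.2
    rw [g_sub] at hP hQ
    by_cases h3 : p.2 = p.1
    · have h4 : q.2 = q.1 := by
        by_contra h5
        simp [h3, h5] at h2
      apply Prod.ext <;> omega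
    · have h4 : ¬ q.2 = q.1 := by
        intro h5
        simp [h3, h5] at h2
      have p1 : a * ((p.2 : ℤ) + p.1) + b = 0 := by
        rcases mul_eq_zero.1 hP with h5 | h5
        · omega
        · exact h5
      have q1 : a * ((q.2 : ℤ) + q.1) + b = 0 := by
        rcases mul_eq_zero.1 hQ with h5 | h5
        · omega
        · exact h5
      have h6 : a * (((p.2 : ℤ) + p.1) - ((q.2 : ℤ) + q.1)) = 0 := by linarith
      rcases mul_eq_zero.1 h6 with h7 | h7
      · exact absurd h7 ha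
      · apply Prod.ext <;> omega

/-- **the second moment with weights** -/
theorem second (a b : ℤ) (ha : a ≠ 0) (w : ℕ → ℝ) (hw : ∀ t, |w t| ≤ 1) (M Y : ℕ) (hY : 1 ≤ Y) (f : ℤ → ℝ)
    (Z Q : ℝ) (hZ : 0 ≤ Z) (hsup : ∀ α : ℝ, ‖ES 1 (Y : ℤ) (fun n => (f n : ℂ)) α‖ ≤ Z)
    (hQ : ∑ u ∈ Icc (1 : ℤ) Y, f u ^ 2 ≤ Q) (Cs : Finset ℤ) :
    ∑ c ∈ Cs, TW a b w M Y f c ^ 2 ≤
      2 * (M * Q + √(2 * (Y * (1 + Real.log Y) ^ 4)) * √(Z ^ 2 * Q)) := by
  classical
  have hQ0 : 0 ≤ Q := (sum_nonneg fun _ _ => sq_nonneg _).trans hQ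
  set U : Finset ℤ := Cs ∪ ((Icc 1 M) ×ˢ (Icc (1 : ℤ) Y)).image (fun p => p.2 - g a b p.1) with hU
  have h1 : ∑ c ∈ Cs, TW a b w M Y f c ^ 2 ≤ ∑ c ∈ U, TW a b w M Y f c ^ 2 := by
    apply sum_le_sum_of_subset_of_nonneg
    · intro c hc
      rw [hU]
      exact mem_union_left _ hc
    · intro _ _ _; positivity
  refine h1.trans ?_
  rw [energy a b w M Y f U (by
    intro n hn v hv
    rw [hU]
    apply mem_union_right
    rw [mem_image]
    exact ⟨(n, v), mem_product.2 ⟨hn, hv⟩, rfl⟩)]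
  set I := Icc (-((Y : ℤ) - 1)) ((Y : ℤ) - 1) with hI
  set P := (Icc 1 M) ×ˢ (Icc 1 M) with hP
  set hf : ℕ × ℕ → ℤ := fun p => g a b p.2 - g a b p.1 with hhf
  have e1 : ∑ n ∈ Icc 1 M, ∑ n' ∈ Icc 1 M, w n * w n' * rc Y f (g a b n' - g a b n) ≤
      ∑ p ∈ P, |rc Y f (hf p)| := by
    rw [hP, sum_product]
    refine sum_le_sum fun n _ => sum_le_sum fun n' _ => ?_
    refine (le_abs_self _).trans ?_
    rw [abs_mul, abs_mul]
    have h2 : |w n| * |w n'| ≤ 1 := by
      have := mul_le_mul (hw n) (hw n') (abs_nonneg _) zero_le_one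
      linarith
    calc |w n| * |w n'| * |rc Y f (g a b n' - g a b n)| ≤ 1 * |rc Y f (g a b n' - g a b n)| :=
          mul_le_mul_of_nonneg_right h2 (abs_nonneg _)
      _ = _ := by rw [one_mul]
  refine e1.trans ?_
  rw [← sum_filter_add_sum_filter_not P (fun p => hf p = 0)]
  have h2 : ∑ p ∈ P.filter (fun p => hf p = 0), |rc Y f (hf p)| ≤ 2 * (M * Q) := by
    have e2 : ∀ p ∈ P.filter (fun p => hf p = 0), |rc Y f (hf p)| = ∑ u ∈ Icc (1 : ℤ) Y, f u ^ 2 := by
      intro p hp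
      rw [(mem_filter.1 hp).2, rc_zero, abs_of_nonneg (sum_nonneg fun _ _ => sq_nonneg _)]
    rw [sum_congr rfl e2, sum_const, nsmul_eq_mul]
    have h3 : ((P.filter (fun p => hf p = 0)).card : ℝ) ≤ 2 * M := by
      exact_mod_cast diag_le a b ha M
    calc _ ≤ (2 * M : ℝ) * ∑ u ∈ Icc (1 : ℤ) Y, f u ^ 2 :=
          mul_le_mul_of_nonneg_right h3 (sum_nonneg fun _ _ => sq_nonneg _)
      _ ≤ (2 * M : ℝ) * Q := mul_le_mul_of_nonneg_left hQ (by positivity)
      _ = _ := by ring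
  have h3 : ∑ p ∈ P.filter (fun p => ¬ hf p = 0), |rc Y f (hf p)| ≤
      2 * ∑ h ∈ I.filter (fun h => h ≠ 0), (h.natAbs.divisors.card : ℝ) * |rc Y f h| := by
    have h4 : ∑ p ∈ P.filter (fun p => ¬ hf p = 0), |rc Y f (hf p)| =
        ∑ p ∈ P.filter (fun p => hf p ∈ I.filter (fun h => h ≠ 0)), |rc Y f (hf p)| := by
      symm
      apply sum_subset
      · intro p hp
        rw [mem_filter] at hp ⊢
        exact ⟨hp.1, (mem_filter.1 hp.2).2⟩
      · intro p hp hp2
        rw [mem_filter] at hp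
        rw [rc_big, abs_zero]
        intro h5
        exact hp2 (mem_filter.2 ⟨hp.1, mem_filter.2 ⟨h5, hp.2⟩⟩)
    rw [h4, mul_sum]
    rw [← sum_fiberwise_of_maps_to (s := P.filter (fun p => hf p ∈ I.filter (fun h => h ≠ 0)))
      (t := I.filter (fun h => h ≠ 0)) (g := hf) (fun p hp => (mem_filter.1 hp).2)]
    refine sum_le_sum fun h hh => ?_
    calc ∑ p ∈ (P.filter (fun p => hf p ∈ I.filter (fun h => h ≠ 0))).filter (fun p => hf p = h), |rc Y f (hf p)|
        = ∑ p ∈ (P.filter (fun p => hf p ∈ I.filter (fun h => h ≠ 0))).filter (fun p => hf p = h), |rc Y f h| := by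
          refine sum_congr rfl fun p hp => ?_
          rw [(mem_filter.1 hp).2]
      _ = (((P.filter (fun p => hf p ∈ I.filter (fun h => h ≠ 0))).filter (fun p => hf p = h)).card : ℝ) * |rc Y f h| := by
          rw [sum_const, nsmul_eq_mul]
      _ ≤ (2 * (h.natAbs.divisors.card : ℝ)) * |rc Y f h| := by
          apply mul_le_mul_of_nonneg_right _ (abs_nonneg _)
          have h5 := fiber_le a b ha M h (mem_filter.1 hh).2
          have h6 : (P.filter (fun p => hf p ∈ I.filter (fun h => h ≠ 0))).filter (fun p => hf p = h) ⊆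
              P.filter (fun p => hf p = h) := by
            intro p hp
            rw [mem_filter, mem_filter] at hp
            exact mem_filter.2 ⟨hp.1.1, hp.2⟩
          exact_mod_cast (card_le_card h6).trans h5
      _ = _ := by ring
  have h4 : ∑ h ∈ I.filter (fun h => h ≠ 0), (h.natAbs.divisors.card : ℝ) * |rc Y f h| ≤
      √(2 * (Y * (1 + Real.log Y) ^ 4)) * √(Z ^ 2 * Q) := by
    have h5 := Real.sum_mul_le_sqrt_mul_sqrt (I.filter (fun h => h ≠ 0))
      (fun h : ℤ => (h.natAbs.divisors.card : ℝ)) (fun h => |rc Y f h|)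
    refine h5.trans ?_
    apply mul_le_mul _ _ (Real.sqrt_nonneg _) (Real.sqrt_nonneg _)
    · apply Real.sqrt_le_sqrt
      have h6 := div_sq Y
      have h7 : ∑ h ∈ I.filter (fun h => h ≠ 0), (h.natAbs.divisors.card : ℝ) ^ 2 ≤
          ∑ j ∈ ({1, -1} : Finset ℤ) ×ˢ Icc 1 Y, ((j.2.divisors.card : ℕ) : ℝ) ^ 2 := by
        have h8 : ∀ h ∈ I.filter (fun h => h ≠ 0), (h.natAbs.divisors.card : ℝ) ^ 2 =
            (fun j : ℤ × ℕ => ((j.2.divisors.card : ℕ) : ℝ) ^ 2) (h.sign, h.natAbs) := by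
          intro h _; rfl
        rw [sum_congr rfl h8, ← sum_image (s := I.filter (fun h => h ≠ 0)) (g := fun h : ℤ => (h.sign, h.natAbs))
          (f := fun j : ℤ × ℕ => ((j.2.divisors.card : ℕ) : ℝ) ^ 2)]
        · apply sum_le_sum_of_subset_of_nonneg
          · intro j hj
            rw [mem_image] at hj
            obtain ⟨h, hh, rfl⟩ := hj
            rw [mem_filter, hI, mem_Icc] at hh
            rw [mem_product, mem_insert, mem_singleton, mem_Icc]
            refine ⟨?_, by omega, by omega⟩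
            rcases lt_trichotomy h 0 with h9 | h9 | h9
            · right; exact Int.sign_eq_neg_one_of_neg h9
            · exact absurd h9 hh.2
            · left; exact Int.sign_eq_one_of_pos h9
          · intro _ _ _; positivity
        · intro h _ h' _ he
          rw [Prod.mk.injEq] at he
          rw [← Int.sign_mul_natAbs h, ← Int.sign_mul_natAbs h', he.1, he.2]
      refine h7.trans ?_
      rw [sum_product]
      simp only []
      rw [sum_const, show #({1, -1} : Finset ℤ) = 2 from rfl, nsmul_eq_mul]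
      push_cast
      linarith
    · apply Real.sqrt_le_sqrt
      have h6 := cor_sq 1 (Y : ℤ) (fun n => (f n : ℂ)) (fun n => (f n : ℂ)) Z hsup
      have h7 : ∑ h ∈ I.filter (fun h => h ≠ 0), |rc Y f h| ^ 2 ≤
          ∑ h ∈ Icc (-((Y : ℤ) - 1)) ((Y : ℤ) - 1), ‖cor 1 (Y : ℤ) (fun n => (f n : ℂ)) (fun n => (f n : ℂ)) h‖ ^ 2 := by
        calc ∑ h ∈ I.filter (fun h => h ≠ 0), |rc Y f h| ^ 2 ≤ ∑ h ∈ I, |rc Y f h| ^ 2 :=
              sum_le_sum_of_subset_of_nonneg (filter_subset _ _) (fun _ _ _ => by positivity)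
          _ = _ := by
              refine sum_congr rfl fun h _ => ?_
              rw [rc_cor, Complex.norm_real, Real.norm_eq_abs]
      refine h7.trans (h6.trans ?_)
      apply mul_le_mul_of_nonneg_left _ (sq_nonneg _)
      refine le_trans (le_of_eq ?_) hQ
      refine sum_congr rfl fun u _ => ?_
      rw [Complex.norm_real, Real.norm_eq_abs, sq_abs]
  linarith

end Pool.Agent.N740.PA
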